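import Pool.Agent.H78.NQ.Mass4
import Pool.Agent.H71.NB.Win

/-!
# NQ MassU: non-Wieferich primes with a non-residue condition

The character sums `∑ (D/p) log p` for `D = ± ∏_{d ∈ S} s d` are `o(x)` in all windows (`H71/NB/Win.lean`), so
the primes with all symbols `(s d / p) = 1`, `d ∈ T`, `|T| = 3`, have proportion `1/8` in both classes modulo 4.
Total mass of `Good k`: `(14 + 10/3) k + o(k)`; `7/8` of it is `15.166.. k`; special primes `3/4 k + o(k)`;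
`17 log 2 + 4 - 3/4 < 15.04`.
-/

set_option autoImplicit false

namespace Pool.Agent.H78.NQ

open Finset Filter
open Pool.Agent.H11.NW (H Wf)
open Pool.Agent.H71.NB (class4 ones4 jac4_one jac4_neg psi_near psi_eq_sum)

/-- one class modulo 4 in one window: mass of the primes with some symbol `≠ 1` -/
theorem massU_class (s : ℤ) (T : Finset ℤ) (hT : T.card = 3)
    (hind : ∀ S ⊆ T, S.Nonempty → ¬ IsSquare (∏ d ∈ S, (s * d)) ∧ ¬ IsSquare (-∏ d ∈ S, (s * d)))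
    (e : ℤ) (he : e = 1 ∨ e = -1) (ε : ℝ) (hε : 0 < ε) :
    ∀ᶠ x : ℕ in atTop, ∀ u v : ℕ, 2 ≤ u → u ≤ v → v ≤ x →
      7 / 16 * ((v : ℝ) - u) - ε * x ≤ ∑ p ∈ (Ioc u v).filter
        (fun p => p.Prime ∧ jacobiSym (-1) p = e ∧ ∃ d ∈ T, jacobiSym (s * d) p ≠ 1),
          Real.log p := by
  classical
  filter_upwards [class4 e he ε hε, ones4 e he s T hind ε hε] with x h1 h2 u v hu huv hvx
  have b1 := (abs_le.1 (h1 u v hu huv hvx)).1
  have b2 := h2 u v hu huv hvx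
  rw [hT] at b2
  have h5 : ∑ p ∈ (Ioc u v).filter (fun p => p.Prime ∧ jacobiSym (-1) p = e), Real.log p
      ≤ ∑ p ∈ (Ioc u v).filter
        (fun p => p.Prime ∧ jacobiSym (-1) p = e ∧ ∃ d ∈ T, jacobiSym (s * d) p ≠ 1), Real.log p
        + ∑ p ∈ (Ioc u v).filter
        (fun p => p.Prime ∧ jacobiSym (-1) p = e ∧ ∀ d ∈ T, jacobiSym (s * d) p = 1),
          Real.log p := by
    rw [← sum_union_inter]
    refine le_trans (sum_le_sum_of_subset_of_nonneg ?_ fun p _ _ => Real.log_natCast_nonneg p)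
      (le_add_of_nonneg_right (sum_nonneg fun p _ => Real.log_natCast_nonneg p))
    intro p hp
    rw [mem_union, mem_filter, mem_filter]
    obtain ⟨h6, h7, h8⟩ := mem_filter.1 hp
    by_cases hall : ∀ d ∈ T, jacobiSym (s * d) p = 1
    · exact Or.inr ⟨h6, h7, h8, hall⟩
    · push Not at hall
      exact Or.inl ⟨h6, h7, h8, hall⟩
  have hx : 0 ≤ ε * (x : ℝ) := by positivity
  norm_num at b2
  linarith

theorem psi_four (ε : ℝ) (hε : 0 < ε) : ∀ᶠ x : ℕ in atTop, ∀ y : ℕ, y ≤ x →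
    Chebyshev.psi (y : ℝ) ≤ y + ε * x := by
  filter_upwards [psi_near ε hε] with x h y hy
  rw [psi_eq_sum y]
  have := (abs_le.1 (h y hy)).2
  linarith

open Classical in
/-- at most three exceptional classes: input for the QX assembly -/
theorem massU (s : ℤ) (T : Finset ℤ) (hT : T.card = 3)
    (hind : ∀ S ⊆ T, S.Nonempty → ¬ IsSquare (∏ d ∈ S, (s * d)) ∧ ¬ IsSquare (-∏ d ∈ S, (s * d))) :
    ∃ m1 : ℕ, ∀ m : ℕ, m1 ≤ m → (1 / 10 : ℝ) * 2 ^ m ≤
      ∑ p ∈ (Ioc (4 * 2 ^ m) (32 * 2 ^ m)).filter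
        (fun p => p.Prime ∧ ¬ Wf p ∧ ∃ d ∈ T, jacobiSym (s * d) p ≠ 1), Real.log p := by
  obtain ⟨x1, hx1⟩ := eventually_atTop.1 (massU_class s T hT hind 1 (Or.inl rfl) (1 / 20000)
    (by norm_num))
  obtain ⟨x2, hx2⟩ := eventually_atTop.1 (massU_class s T hT hind (-1) (Or.inr rfl) (1 / 20000)
    (by norm_num))
  obtain ⟨x3, hx3⟩ := eventually_atTop.1 (psi_four (1 / 20000) (by norm_num))
  obtain ⟨x4, hx4⟩ := eventually_atTop.1 (class4 (-1) (Or.inr rfl) (1 / 20000) (by norm_num))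
  -- log k / k small
  obtain ⟨L6, hL6⟩ : ∃ L6 : ℝ, L6 = Real.log (10 ^ 6) := ⟨_, rfl⟩
  have hlog : ∀ᶠ x : ℕ in atTop, L6 + 4 * Real.log (x : ℝ) + 4 ≤ 1 / 100 * x := by
    have h0 : ∀ᶠ y : ℝ in atTop, ‖Real.log y‖ ≤ 1 / 1000 * ‖y‖ :=
      Real.isLittleO_log_id_atTop.def (by norm_num)
    have h1 : ∀ᶠ x : ℕ in atTop, 1000 * (L6 + 4) ≤ (x : ℝ) :=
      tendsto_natCast_atTop_atTop.eventually_ge_atTop _
    filter_upwards [tendsto_natCast_atTop_atTop.eventually h0, h1, eventually_ge_atTop 1]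
      with x h2 h3 h4
    have hx1 : (1 : ℝ) ≤ x := by exact_mod_cast h4
    rw [Real.norm_eq_abs, Real.norm_eq_abs, abs_of_nonneg (Real.log_nonneg hx1),
      abs_of_nonneg (by linarith : (0 : ℝ) ≤ x)] at h2
    linarith
  obtain ⟨x5, hx5⟩ := eventually_atTop.1 hlog
  refine ⟨max (max (max x1 x2) (max x3 x4)) (max x5 1), fun m hm => ?_⟩
  set k : ℕ := 2 ^ m with hk
  have hmk : m < k := Nat.lt_two_pow_self
  have hb : ∀ a, a ≤ max (max (max x1 x2) (max x3 x4)) (max x5 1) → a ≤ k := fun a ha =>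
    le_trans (le_trans ha hm) hmk.le
  have k1 : x1 ≤ 32 * k := by have := hb x1 (by simp); omega
  have k2 : x2 ≤ 32 * k := by have := hb x2 (by simp); omega
  have k3 : x3 ≤ 32 * k := by have := hb x3 (by simp); omega
  have k4 : x4 ≤ 32 * k := by have := hb x4 (by simp); omega
  have k5 : x5 ≤ k := hb x5 (by simp)
  have kpos : 1 ≤ k := hb 1 (by simp)
  have hm1 : 1 ≤ m := le_trans (by simp) hm
  have hk2 : 2 ≤ k := by
    rw [hk]; calc 2 = 2 ^ 1 := by norm_num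
      _ ≤ 2 ^ m := Nat.pow_le_pow_right (by norm_num) hm1
  -- the sets
  set A1 := (Ioc (4 * k) (32 * k - 3)).filter
    (fun p => p.Prime ∧ jacobiSym (-1) p = 1 ∧ ∃ d ∈ T, jacobiSym (s * d) p ≠ 1) with hA1
  set A3 := (Ioc (4 * k) ((32 * k - 3) / 3)).filter
    (fun p => p.Prime ∧ jacobiSym (-1) p = -1 ∧ ∃ d ∈ T, jacobiSym (s * d) p ≠ 1) with hA3
  set W := (range (32 * k)).filter (fun p => p.Prime ∧ Wf p ∧ Good k p) with hW
  set B := (Ioc (4 * k) (32 * k)).filter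
    (fun p => p.Prime ∧ ¬ Wf p ∧ ∃ d ∈ T, jacobiSym (s * d) p ≠ 1) with hB
  have a1 := hx1 (32 * k) k1 (4 * k) (32 * k - 3) (by omega) (by omega) (by omega)
  have a3 := hx2 (32 * k) k2 (4 * k) ((32 * k - 3) / 3) (by omega) (by omega) (by omega)
  rw [← hA1] at a1
  rw [← hA3] at a3
  have hodd : ∀ p : ℕ, p.Prime → 4 * k < p → Odd p := fun p hp h => hp.odd_of_ne_two (by omega)
  have hdisj : Disjoint A1 A3 := by
    rw [Finset.disjoint_left]
    intro p hp hq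
    have h1 := (mem_filter.1 hp).2.2.1
    have h2 := (mem_filter.1 hq).2.2.1
    rw [h1] at h2
    norm_num at h2
  have hsub : A1 ∪ A3 ⊆ B ∪ W := by
    intro p hp
    rw [mem_union] at hp ⊢
    rcases hp with hp | hp
    · obtain ⟨h1, h2, h3, h4⟩ := mem_filter.1 hp
      rw [mem_Ioc] at h1
      have h5 := (jac4_one p (hodd p h2 h1.1)).1 h3
      by_cases hw : Wf p
      · exact Or.inr (mem_filter.2 ⟨mem_range.2 (by omega), h2, hw, h1.1, Or.inl ⟨h5, by omega⟩⟩)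
      · exact Or.inl (mem_filter.2 ⟨mem_Ioc.2 ⟨h1.1, by omega⟩, h2, hw, h4⟩)
    · obtain ⟨h1, h2, h3, h4⟩ := mem_filter.1 hp
      rw [mem_Ioc] at h1
      have h5 := (jac4_neg p (hodd p h2 h1.1)).1 h3
      by_cases hw : Wf p
      · exact Or.inr (mem_filter.2 ⟨mem_range.2 (by omega), h2, hw, h1.1, Or.inr ⟨h5, by omega⟩⟩)
      · exact Or.inl (mem_filter.2 ⟨mem_Ioc.2 ⟨h1.1, by omega⟩, h2, hw, h4⟩)
  have hsum : ∑ p ∈ A1, Real.log p + ∑ p ∈ A3, Real.log p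
      ≤ ∑ p ∈ B, Real.log p + ∑ p ∈ W, Real.log p := by
    rw [← sum_union hdisj, ← sum_union_inter]
    refine le_trans (sum_le_sum_of_subset_of_nonneg hsub fun p _ _ => Real.log_natCast_nonneg p)
      (le_add_of_nonneg_right (sum_nonneg fun p _ => Real.log_natCast_nonneg p))
  -- special primes
  have s1 := (abs_le.1 (hx4 (32 * k) k4 (3 * k) (4 * k) (by omega) (by omega) (by omega))).1
  have s2 := (abs_le.1 (hx4 (32 * k) k4 (3 * k / 2) (2 * k) (by omega) (by omega) (by omega))).1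
  set S1 := (Ioc (3 * k) (4 * k)).filter (fun p => p.Prime ∧ jacobiSym (-1) p = -1) with hS1
  set S2 := (Ioc (3 * k / 2) (2 * k)).filter (fun p => p.Prime ∧ jacobiSym (-1) p = -1) with hS2
  set S0 := (range (4 * k + 1)).filter (fun l => l.Prime ∧ Special k l) with hS0
  have hdS : Disjoint S1 S2 := by
    rw [Finset.disjoint_left]
    intro p hp hq
    have h1 := (mem_Ioc.1 (mem_filter.1 hp).1).1
    have h2 := (mem_Ioc.1 (mem_filter.1 hq).1).2
    omega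
  have hsubS : S1 ∪ S2 ⊆ S0 := by
    intro p hp
    rw [mem_union] at hp
    rcases hp with hp | hp
    · obtain ⟨h1, h2, h3⟩ := mem_filter.1 hp
      rw [mem_Ioc] at h1
      have h4 := (jac4_neg p (h2.odd_of_ne_two (by omega))).1 h3
      exact mem_filter.2 ⟨mem_range.2 (by omega), h2, h4, Or.inl ⟨by omega, by omega⟩⟩
    · obtain ⟨h1, h2, h3⟩ := mem_filter.1 hp
      rw [mem_Ioc] at h1
      have h4 := (jac4_neg p (h2.odd_of_ne_two (by omega))).1 h3
      exact mem_filter.2 ⟨mem_range.2 (by omega), h2, h4, Or.inr ⟨by omega, by omega⟩⟩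
  have hsumS : ∑ p ∈ S1, Real.log p + ∑ p ∈ S2, Real.log p ≤ ∑ p ∈ S0, Real.log p := by
    rw [← sum_union hdS]
    exact sum_le_sum_of_subset_of_nonneg hsubS fun p _ _ => Real.log_natCast_nonneg p
  have hw := wieferich_mass4 m hm1
  rw [← hk, ← hW, ← hS0, ← hL6] at hw
  have hpsi := hx3 (32 * k) k3 (4 * k) (by omega)
  have hlg := hx5 k k5
  have h2k : ((2 : ℝ) ^ m) = (k : ℝ) := by rw [hk]; push_cast; rfl
  rw [h2k] at hw ⊢
  have hl2 : Real.log 2 < 0.6931471808 := Real.log_two_lt_d9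
  have hkr : (1 : ℝ) ≤ k := by exact_mod_cast kpos
  have hpsi' : Chebyshev.psi (4 * (k : ℝ)) ≤ 4 * k + 1 / 20000 * (32 * k) := by
    have e : ((4 * k : ℕ) : ℝ) = 4 * (k : ℝ) := by push_cast; ring
    rw [e] at hpsi
    push_cast at hpsi
    exact hpsi
  have c1 : ((32 * k - 3 : ℕ) : ℝ) = 32 * k - 3 := by
    rw [Nat.cast_sub (by omega)]; push_cast; ring
  have c3 : (32 * (k : ℝ) - 5) / 3 ≤ (((32 * k - 3) / 3 : ℕ) : ℝ) := by
    have h : 32 * k ≤ 3 * ((32 * k - 3) / 3) + 5 := by omega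
    have h' : ((32 * k : ℕ) : ℝ) ≤ ((3 * ((32 * k - 3) / 3) + 5 : ℕ) : ℝ) := by exact_mod_cast h
    push_cast at h'
    linarith
  have c4 : ((3 * k / 2 : ℕ) : ℝ) ≤ 3 * (k : ℝ) / 2 := by
    have h : 2 * (3 * k / 2) ≤ 3 * k := by omega
    have h' : ((2 * (3 * k / 2) : ℕ) : ℝ) ≤ ((3 * k : ℕ) : ℝ) := by exact_mod_cast h
    push_cast at h'
    linarith
  rw [c1] at a1
  push_cast at a1 a3 s1 s2 c3 c4
  have hprod : 17 * (k : ℝ) * Real.log 2 ≤ 17 * k * 0.6931471808 :=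
    mul_le_mul_of_nonneg_left hl2.le (by positivity)
  set vA1 := ∑ p ∈ A1, Real.log (p : ℝ) with hvA1
  set vA3 := ∑ p ∈ A3, Real.log (p : ℝ) with hvA3
  set vB := ∑ p ∈ B, Real.log (p : ℝ) with hvB
  set vW := ∑ p ∈ W, Real.log (p : ℝ) with hvW
  set vS0 := ∑ p ∈ S0, Real.log (p : ℝ) with hvS0
  set vS1 := ∑ p ∈ S1, Real.log (p : ℝ) with hvS1
  set vS2 := ∑ p ∈ S2, Real.log (p : ℝ) with hvS2
  have t1 : vW ≤ 15.05 * k - 4 := by linarith
  have t2 : 15.1634 * (k : ℝ) - 3 ≤ vA1 + vA3 := by linarith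
  have target : (1 / 10 : ℝ) * k ≤ vB := by
    linarith
  exact target

end Pool.Agent.H78.NQ
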