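import Pool.Agent.H11.NW.Defs

/-!
# Project NQ (version 2 of the non-Wieferich theorem): definitions

`c = 1/4`, double poles at the nodes `-3 k, …, k`. `H` and `Wf` are those of `H11.NW`.
-/

set_option autoImplicit false

namespace Pool.Agent.H78.NQ

open Finset
open Pool.Agent.H11.NW (H Wf)

section

variable (F : Type) [Field F]

/-- the jet `ja j + jb j x` of `∏ (x - b + 1/4) / (x - b)`, `1 ≤ b ≤ j`, at `x = 0` -/
def jab : ℕ → F × F
  | 0 => (1, 0)
  | j + 1 => ((jab j).1 * ((j : F) + 3 / 4) / ((j : F) + 1),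
      (((j : F) + 3 / 4) * (jab j).2 - (jab j).1
        + (jab j).1 * ((j : F) + 3 / 4) / ((j : F) + 1)) / ((j : F) + 1))

/-- `∏ (b - 1/4) / b`, `1 ≤ b ≤ j` -/
def ja (j : ℕ) : F := (jab F j).1

/-- the linear coefficient of the jet -/
def jb (j : ℕ) : F := (jab F j).2

@[simp] theorem ja_zero : ja F 0 = 1 := rfl

@[simp] theorem jb_zero : jb F 0 = 0 := rfl

theorem ja_succ (j : ℕ) : ja F (j + 1) = ja F j * ((j : F) + 3 / 4) / ((j : F) + 1) := rfl

theorem jb_succ (j : ℕ) : jb F (j + 1) = (((j : F) + 3 / 4) * jb F j - ja F j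
    + ja F j * ((j : F) + 3 / 4) / ((j : F) + 1)) / ((j : F) + 1) := rfl

/-- `∏ 4 b / (4 b + 1)`, `1 ≤ b ≤ i` -/
def rho (i : ℕ) : F := ∏ b ∈ range i, (4 * ((b : F) + 1)) / (4 * ((b : F) + 1) + 1)

/-- term of the node `-j` -/
def TN (k j : ℕ) : F :=
  ((3 * k - j : ℕ) : F) * (jb F j - 2 * ja F j * (H F (3 * k - j) - H F (k + j))) + ja F j

/-- term of the node `i + 1` -/
def TP (k i : ℕ) : F := 4 * rho F i * ((3 * k + i + 1 : ℕ) : F)

/-- the sum over all nodes -/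
def J (k : ℕ) : F :=
  (∑ j ∈ range (3 * k + 1), ((4 * k).choose (k + j) : F) ^ 2 * TN F k j)
  + ∑ i ∈ range k, ((4 * k).choose (3 * k + i + 1) : F) ^ 2 * TP F k i

end

/-- the condition on `p` for which the sum `J k` vanishes modulo `p` -/
def Good (k p : ℕ) : Prop :=
  4 * k < p ∧ ((p % 4 = 1 ∧ p + 3 ≤ 32 * k) ∨ (p % 4 = 3 ∧ 3 * p + 3 ≤ 32 * k))

instance (k : ℕ) : DecidablePred (Good k) := fun p => by unfold Good; infer_instance

/-- the special primes `l ≡ 3 (mod 4)` in `(3 k / 2, 2 k]` and `(3 k, 4 k]` -/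
def Special (k l : ℕ) : Prop :=
  l % 4 = 3 ∧ ((3 * k < l ∧ l ≤ 4 * k) ∨ (3 * k < 2 * l ∧ l ≤ 2 * k))

instance (k : ℕ) : DecidablePred (Special k) := fun l => by unfold Special; infer_instance

end Pool.Agent.H78.NQ
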