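import Pool.Agent.H78.NQ.Defs
import Pool.Agent.H11.NW.Harm

/-!
# NQ Harm4: harmonic sums to `p/4`, and the polynomial

PROOF. `harm_zero p hp hw : H (ZMod p) ((p - 1) / 2) = 0` is in `H11/NW/Harm.lean`. With
`h = H_((p-1)/2)`, `q = H_(p/4)` (natural division): split `h` into even and odd `j`: the even ones give
`q / 2`, the odd ones are, through `j ↦ p - j` (even numbers between `p/2` and `p`), `-(1/2) (h - q)`. So
`h = q / 2 - (h - q) / 2`, `q = (3/2) h = 0`. For `p = 3 mod 4`: `H_(p-1-n) = H_n` (reflection `j ↦ p - j`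
and `H_(p-1) = 0`), and `p - 1 - (3 p - 1)/4 = (p - 3)/4 = p/4`. `exists_poly4` as in `exists_poly` of
`H11/NW/Harm.lean` (`f = ∏ (1 - X/j)`, `1 ≤ j ≤ M`, `4 M + 1 = 0` in `ZMod p`).
-/

set_option autoImplicit false

namespace Pool.Agent.H78.NQ

open Finset Polynomial
open Pool.Agent.H11.NW (H Wf)

lemma harm4_split {R : Type} [AddCommGroup R] (g : ℕ → R) (t : ℕ) :
    ∑ j ∈ range (2 * t), g j = ∑ i ∈ range t, g (2 * i) + ∑ i ∈ range t, g (2 * i + 1) := by
  induction t with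
  | zero => simp
  | succ t ih =>
    rw [mul_add, mul_one, sum_range_succ, sum_range_succ, ih, sum_range_succ, sum_range_succ]
    abel

lemma harm4_split' {R : Type} [AddCommGroup R] (g : ℕ → R) (t m : ℕ)
    (hm : m = 2 * t ∨ m = 2 * t + 1) :
    ∑ j ∈ range m, g j = ∑ i ∈ range (m - t), g (2 * i) + ∑ i ∈ range t, g (2 * i + 1) := by
  rcases hm with rfl | rfl
  · rw [harm4_split, show 2 * t - t = t by omega]
  · rw [sum_range_succ, harm4_split, show 2 * t + 1 - t = t + 1 by omega, sum_range_succ]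
    abel

/-- the harmonic number `H_(p/4)` vanishes -/
lemma harm4_quarter (p : ℕ) [Fact p.Prime] (hp : 3 < p) (hw : Wf p) :
    H (ZMod p) (p / 4) = 0 := by
  have hpr : p.Prime := Fact.out
  obtain ⟨m, hm⟩ := hpr.odd_of_ne_two (by omega)
  have h0 := Pool.Agent.H11.NW.harm_zero p hp hw
  have hm' : (p - 1) / 2 = m := by omega
  rw [hm'] at h0
  obtain ⟨t, ht⟩ : ∃ t, t = p / 4 := ⟨_, rfl⟩
  rw [← ht]
  have hmt : m = 2 * t ∨ m = 2 * t + 1 := by omega
  have h2 : (2 : ZMod p) ≠ 0 := by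
    intro h
    have : ((2 : ℕ) : ZMod p) = 0 := by exact_mod_cast h
    rw [ZMod.natCast_eq_zero_iff] at this
    exact absurd (Nat.le_of_dvd (by omega) this) (by omega)
  have hA := harm4_split' (fun j => 1 / ((j : ZMod p) + 1)) t m hmt
  have hA1 : ∑ i ∈ range t, (fun j : ℕ => 1 / ((j : ZMod p) + 1)) (2 * i + 1) =
      1 / 2 * H (ZMod p) t := by
    rw [H, mul_sum]
    refine sum_congr rfl fun i _ => ?_
    show 1 / (((2 * i + 1 : ℕ) : ZMod p) + 1) = _
    rw [one_div_mul_one_div]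
    congr 1
    push_cast
    ring
  have hB : ∑ i ∈ range m, 1 / (2 * ((i : ZMod p) + 1)) = 1 / 2 * H (ZMod p) m := by
    rw [H, mul_sum]
    exact sum_congr rfl fun i _ => (one_div_mul_one_div _ _).symm
  have hB1 : ∑ i ∈ range t, 1 / (2 * ((i : ZMod p) + 1)) = 1 / 2 * H (ZMod p) t := by
    rw [H, mul_sum]
    exact sum_congr rfl fun i _ => (one_div_mul_one_div _ _).symm
  have hB2 : ∑ i ∈ range (m - t), 1 / (2 * (((t + i : ℕ) : ZMod p) + 1)) =
      - ∑ i ∈ range (m - t), (fun j : ℕ => 1 / ((j : ZMod p) + 1)) (2 * i) := by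
    rw [← sum_range_reflect (fun i => (fun j : ℕ => 1 / ((j : ZMod p) + 1)) (2 * i)) (m - t),
      ← sum_neg_distrib]
    refine sum_congr rfl fun i hi => ?_
    have hi' := mem_range.1 hi
    show 1 / (2 * (((t + i : ℕ) : ZMod p) + 1)) =
      - (1 / (((2 * (m - t - 1 - i) : ℕ) : ZMod p) + 1))
    have h5 : ((2 * (t + i + 1) + (2 * (m - t - 1 - i) + 1) : ℕ) : ZMod p) = 0 := by
      have : 2 * (t + i + 1) + (2 * (m - t - 1 - i) + 1) = p := by omega
      rw [this]; exact ZMod.natCast_self p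
    have h6 : 2 * (((t + i : ℕ) : ZMod p) + 1) = -(((2 * (m - t - 1 - i) : ℕ) : ZMod p) + 1) := by
      push_cast at h5 ⊢
      linear_combination h5
    rw [h6, one_div, one_div, inv_neg]
  have hB3 : ∑ i ∈ range m, 1 / (2 * ((i : ZMod p) + 1)) =
      ∑ i ∈ range t, 1 / (2 * ((i : ZMod p) + 1)) +
        ∑ i ∈ range (m - t), 1 / (2 * (((t + i : ℕ) : ZMod p) + 1)) := by
    have h7 : m = t + (m - t) := by omega
    conv_lhs => rw [h7]
    rw [sum_range_add]
  rw [hB, hB1, hB2, h0] at hB3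
  rw [hA1] at hA
  have hA2 : ∑ j ∈ range m, (fun j : ℕ => 1 / ((j : ZMod p) + 1)) j = 0 := h0
  rw [hA2] at hA
  have h8 : (1 / 2 : ZMod p) * 2 = 1 := by rw [one_div, inv_mul_cancel₀ h2]
  linear_combination -hA - hB3 - (H (ZMod p) t) * h8

theorem harm4_zero (p : ℕ) [Fact p.Prime] (hp : 3 < p) (hw : Wf p) (M : ℕ)
    (hM : (p % 4 = 1 ∧ M = (p - 1) / 4) ∨ (p % 4 = 3 ∧ M = (3 * p - 1) / 4)) :
    H (ZMod p) M = 0 := by
  have hq := harm4_quarter p hp hw
  rcases hM with ⟨h1, h2⟩ | ⟨h1, h2⟩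
  · have : M = p / 4 := by omega
    rw [this]; exact hq
  · obtain ⟨t, ht⟩ : ∃ t, t = p / 4 := ⟨_, rfl⟩
    rw [← ht] at hq
    have hpt : p = 4 * t + 3 := by omega
    have hMt : M = 3 * t + 2 := by omega
    have h3 := Pool.Agent.H11.NW.sum_inv_univ p (by omega)
    have h4 : p - 1 = M + t := by omega
    rw [h4, sum_range_add] at h3
    have h5 : ∑ x ∈ range t, (((M + x : ℕ) : ZMod p) + 1)⁻¹ = - H (ZMod p) t := by
      rw [H, ← sum_range_reflect (fun j => 1 / ((j : ZMod p) + 1)) t, ← sum_neg_distrib]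
      refine sum_congr rfl fun k hk => ?_
      have hk' := mem_range.1 hk
      have h6 : (((M + k : ℕ) : ZMod p) + 1) = -(((t - 1 - k : ℕ) : ZMod p) + 1) := by
        have h5 : ((M + k + 1 + (t - 1 - k + 1) : ℕ) : ZMod p) = 0 := by
          have : M + k + 1 + (t - 1 - k + 1) = p := by omega
          rw [this]; exact ZMod.natCast_self p
        push_cast at h5 ⊢
        linear_combination h5
      rw [h6, inv_neg, one_div]
    rw [h5, hq, neg_zero, add_zero] at h3
    rw [H, ← h3]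
    exact sum_congr rfl fun j _ => one_div _

theorem exists_poly4 (p : ℕ) [Fact p.Prime] (hp : 3 < p) (M : ℕ) (hMp : M < p)
    (hM : 4 * (M : ZMod p) + 1 = 0) :
    ∃ f : (ZMod p)[X], f.natDegree ≤ M ∧ f.coeff 0 = 1 ∧ f.coeff 1 = - H (ZMod p) M ∧
      (4 * X + 1) * f.comp (X + 1) = 4 * X * f := by
  have hne : ∀ j : ℕ, j < M → ((j : ZMod p) + 1) ≠ 0 := by
    intro j hj h
    have h1 : ((j + 1 : ℕ) : ZMod p) = 0 := by push_cast; exact h
    rw [ZMod.natCast_eq_zero_iff] at h1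
    exact absurd (Nat.le_of_dvd (by omega) h1) (by omega)
  obtain ⟨j0, j1, _⟩ := Pool.Agent.H11.NW.jet_prod M fun j => 1 / ((j : ZMod p) + 1)
  refine ⟨∏ j ∈ range M, (1 - C (1 / ((j : ZMod p) + 1)) * X), ?_, j0, j1, ?_⟩
  · refine le_trans (natDegree_prod_le _ _) ?_
    refine le_trans (sum_le_card_nsmul _ _ 1 fun j _ => ?_) (by simp)
    refine le_trans (natDegree_sub_le _ _) ?_
    rw [natDegree_one]
    exact max_le (by omega) (le_trans (natDegree_C_mul_le _ _) natDegree_X_le)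
  · have e1 : (∏ j ∈ range M, (1 - C (1 / ((j : ZMod p) + 1)) * X)) =
        (∏ j ∈ range M, C (1 / ((j : ZMod p) + 1))) *
          ∏ j ∈ range M, (C ((j : ZMod p) + 1) - X) := by
      rw [← prod_mul_distrib]
      refine prod_congr rfl fun j hj => ?_
      have := hne j (mem_range.1 hj)
      rw [mul_sub, ← C_mul, one_div_mul_cancel this, C_1]
    have e2 : (∏ j ∈ range M, (1 - C (1 / ((j : ZMod p) + 1)) * X)).comp (X + 1) =
        (∏ j ∈ range M, C (1 / ((j : ZMod p) + 1))) *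
          ∏ j ∈ range M, (C (j : ZMod p) - X) := by
      rw [Polynomial.prod_comp, ← prod_mul_distrib]
      refine prod_congr rfl fun j hj => ?_
      have h3 := hne j (mem_range.1 hj)
      rw [sub_comp, one_comp, mul_comp, C_comp, X_comp]
      have h4 : (1 : (ZMod p)[X]) = C (1 / ((j : ZMod p) + 1)) * (C (j : ZMod p) + 1) := by
        rw [← C_1, ← C_add, ← C_mul, one_div_mul_cancel h3]
      linear_combination h4
    rw [e2, e1]
    have e3 := Pool.Agent.H11.NW.prod_shift (K := ZMod p) M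
    have h5 : (4 * C (M : ZMod p) : (ZMod p)[X]) = -1 := by
      have h7 : (4 : ZMod p) * (M : ZMod p) = -1 := by
        linear_combination hM
      have h8 : (4 * C (M : ZMod p) : (ZMod p)[X]) = C (4 * (M : ZMod p)) := by
        rw [C_mul]; congr 1
      rw [h8, h7, C_neg, C_1]
    linear_combination (4 * ∏ j ∈ range M, C (1 / ((j : ZMod p) + 1))) * e3 +
      ((∏ j ∈ range M, C (1 / ((j : ZMod p) + 1))) * ∏ j ∈ range M, (C (j : ZMod p) - X)) * h5

end Pool.Agent.H78.NQ
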