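import Pool.Agent.H78.NQ.Uw
import Pool.Agent.H11.NW.Integ

/-!
# NQ Integ4: common denominator

PROOF. `8^j ∣ 2^(9k)` for `j ≤ 3 k`; `lcmUpto j ∣ lcmUpto (4 k)` for `j ≤ 4 k`, `lcmUpto (4k) * H_n` is an
integer for `n ≤ 4 k`; in every product only one of the factors `jb`, `H` occurs. Compare `H11/NW/Integ.lean`.
-/

set_option autoImplicit false

namespace Pool.Agent.H78.NQ

open Finset
open Pool.Agent.H11.NW (H Wf IsZ isZ_H)

private theorem Integ4_lcm {m N : ℕ} (h : m ≤ N) : ∃ c : ℕ, Nat.lcmUpto N = Nat.lcmUpto m * c := by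
  have hd : Nat.lcmUpto m ∣ Nat.lcmUpto N := by
    unfold Nat.lcmUpto
    exact Finset.lcm_dvd fun b hb => Finset.dvd_lcm (Finset.Icc_subset_Icc_right h hb)
  exact hd

private theorem Integ4_ja {k j : ℕ} (h : j ≤ 3 * k) : IsZ (2 ^ (9 * k) * ja ℚ j) := by
  obtain ⟨z, hz⟩ := ja_int j
  obtain ⟨c, hc⟩ := Nat.exists_eq_add_of_le h
  refine ⟨8 ^ c * z, ?_⟩
  have h9 : 9 * k = 3 * (j + c) := by omega
  have e : (2 : ℚ) ^ (9 * k) = 8 ^ c * 8 ^ j := by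
    rw [h9, pow_mul, pow_add]
    norm_num
    ring
  push_cast
  rw [e, hz]
  ring

private theorem Integ4_jb {k j : ℕ} (h : j ≤ 3 * k) :
    IsZ (2 ^ (9 * k) * (Nat.lcmUpto (4 * k) : ℚ) * jb ℚ j) := by
  obtain ⟨z, hz⟩ := jb_int j
  obtain ⟨c, hc⟩ := Nat.exists_eq_add_of_le h
  obtain ⟨d, hd⟩ := Integ4_lcm (m := j) (N := 4 * k) (by omega)
  refine ⟨8 ^ c * d * z, ?_⟩
  have h9 : 9 * k = 3 * (j + c) := by omega
  have e : (2 : ℚ) ^ (9 * k) = 8 ^ c * 8 ^ j := by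
    rw [h9, pow_mul, pow_add]
    norm_num
    ring
  rw [hd]
  push_cast
  rw [e, hz]
  ring

private theorem Integ4_rho {k i : ℕ} (h : i < k) :
    IsZ ((Nat.lcmUpto (4 * k) : ℚ) * rho ℚ i) := by
  obtain ⟨z, hz⟩ := rho_int i
  obtain ⟨d, hd⟩ := Integ4_lcm (m := 4 * i + 1) (N := 4 * k) (by omega)
  refine ⟨d * z, ?_⟩
  rw [hd]
  push_cast
  rw [hz]
  ring

theorem J_int (k : ℕ) : ∃ z : ℤ, (z : ℚ) = 2 ^ (9 * k) * (Nat.lcmUpto (4 * k) : ℚ) * J ℚ k := by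
  change IsZ _
  set L : ℚ := (Nat.lcmUpto (4 * k) : ℚ) with hL
  have hLZ : IsZ L := IsZ.nat _
  unfold J
  rw [mul_add, Finset.mul_sum, Finset.mul_sum]
  refine IsZ.add (IsZ.sum _ _ fun j hj => ?_) (IsZ.sum _ _ fun i hi => ?_)
  · have hj' := Finset.mem_range.1 hj
    have ha := Integ4_ja (k := k) (j := j) (by omega)
    have hb := Integ4_jb (k := k) (j := j) (by omega)
    have hH1 := isZ_H (N := 4 * k) (n := 3 * k - j) (by omega)
    have hH2 := isZ_H (N := 4 * k) (n := k + j) (by omega)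
    rw [← hL] at hb hH1 hH2
    have h1 : IsZ ((((4 * k).choose (k + j) : ℕ) : ℚ) ^ 2
        * (((3 * k - j : ℕ) : ℚ) * (2 ^ (9 * k) * L * jb ℚ j)
          - ((2 : ℕ) : ℚ) * ((3 * k - j : ℕ) : ℚ) * (2 ^ (9 * k) * ja ℚ j)
            * (L * H ℚ (3 * k - j) - L * H ℚ (k + j)) + 2 ^ (9 * k) * ja ℚ j * L)) :=
      ((IsZ.nat _).pow 2).mul ((((IsZ.nat _).mul hb).sub
        ((((IsZ.nat 2).mul (IsZ.nat _)).mul ha).mul (hH1.sub hH2))).add (ha.mul hLZ))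
    have e : 2 ^ (9 * k) * L * (((4 * k).choose (k + j) : ℚ) ^ 2 * TN ℚ k j)
        = (((4 * k).choose (k + j) : ℕ) : ℚ) ^ 2
        * (((3 * k - j : ℕ) : ℚ) * (2 ^ (9 * k) * L * jb ℚ j)
          - ((2 : ℕ) : ℚ) * ((3 * k - j : ℕ) : ℚ) * (2 ^ (9 * k) * ja ℚ j)
            * (L * H ℚ (3 * k - j) - L * H ℚ (k + j)) + 2 ^ (9 * k) * ja ℚ j * L) := by
      unfold TN
      push_cast
      ring
    rw [e]
    exact h1
  · have hi' := Finset.mem_range.1 hi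
    have hr := Integ4_rho (k := k) (i := i) hi'
    rw [← hL] at hr
    have h1 : IsZ ((((4 * k).choose (3 * k + i + 1) : ℕ) : ℚ) ^ 2
        * (((2 ^ (9 * k) * 4 * (3 * k + i + 1) : ℕ) : ℚ) * (L * rho ℚ i))) :=
      ((IsZ.nat _).pow 2).mul ((IsZ.nat _).mul hr)
    have e : 2 ^ (9 * k) * L * (((4 * k).choose (3 * k + i + 1) : ℚ) ^ 2 * TP ℚ k i)
        = (((4 * k).choose (3 * k + i + 1) : ℕ) : ℚ) ^ 2
        * (((2 ^ (9 * k) * 4 * (3 * k + i + 1) : ℕ) : ℚ) * (L * rho ℚ i)) := by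
      unfold TP
      push_cast
      ring
    rw [e]
    exact h1

end Pool.Agent.H78.NQ
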