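import Pool.Agent.H78.NQ.Defs

/-!
# NQ Jets4: jets of `f` at the nodes (helper42)

PROOF. Induction from `(4 X + 1) f(X + 1) = 4 X f`: the Taylor expansions at `a + 1` and `a` satisfy
`(4 X + (4 a + 1)) (taylor (a + 1) f) = (4 X + 4 a) (taylor a f)`; compare coefficients 0 and 1.
-/

set_option autoImplicit false

namespace Pool.Agent.H78.NQ

open Finset Polynomial

theorem shift_taylor4 {F : Type} [Field F] {f : F[X]}
    (hf : (4 * X + 1) * f.comp (X + 1) = 4 * X * f) (a : F) :
    (C 4 * X + C (4 * a + 1)) * taylor (a + 1) f = (C 4 * X + C (4 * a)) * taylor a f := by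
  have h := congrArg (taylor a) hf
  have e0 : f.comp (X + 1) = taylor 1 f := by
    rw [taylor_apply, C_1]
  have four : (4 : F[X]) = C 4 := rfl
  rw [e0, taylor_mul, taylor_mul, taylor_taylor, four] at h
  have e1 : taylor a (C 4 * X + 1 : F[X]) = C 4 * X + C (4 * a + 1) := by
    have : (1 : F[X]) = C 1 := by simp
    rw [this, map_add, taylor_mul, taylor_C, taylor_X, taylor_C, mul_add, C_add, C_mul]
    ring
  have e2 : taylor a (C 4 * X : F[X]) = C 4 * X + C (4 * a) := by
    rw [taylor_mul, taylor_C, taylor_X, mul_add, C_mul]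
  rw [e1, e2] at h
  exact h

theorem coeff_four0 {F : Type} [Field F] (c : F) (g : F[X]) :
    ((C 4 * X + C c) * g).coeff 0 = c * g.coeff 0 := by
  simp [mul_coeff_zero]

theorem coeff_four1 {F : Type} [Field F] (c : F) (g : F[X]) :
    ((C 4 * X + C c) * g).coeff 1 = 4 * g.coeff 0 + c * g.coeff 1 := by
  rw [add_mul, coeff_add, mul_assoc, coeff_C_mul, coeff_X_mul, coeff_C_mul]

theorem jrec4_0 {F : Type} [Field F] {f : F[X]}
    (hf : (4 * X + 1) * f.comp (X + 1) = 4 * X * f) (a : F) :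
    (4 * a + 1) * (taylor (a + 1) f).coeff 0 = 4 * a * (taylor a f).coeff 0 := by
  have h := congrArg (fun g => g.coeff 0) (shift_taylor4 hf a)
  simpa only [coeff_four0] using h

theorem jrec4_1 {F : Type} [Field F] {f : F[X]}
    (hf : (4 * X + 1) * f.comp (X + 1) = 4 * X * f) (a : F) :
    4 * (taylor (a + 1) f).coeff 0 + (4 * a + 1) * (taylor (a + 1) f).coeff 1 =
      4 * (taylor a f).coeff 0 + 4 * a * (taylor a f).coeff 1 := by
  have h := congrArg (fun g => g.coeff 1) (shift_taylor4 hf a)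
  simpa only [coeff_four1] using h

theorem jet_neg4 {F : Type} [Field F] (h4 : (4 : F) ≠ 0) (f : F[X])
    (hf : (4 * X + 1) * f.comp (X + 1) = 4 * X * f) (f0 : f.coeff 0 = 1) (f1 : f.coeff 1 = 0)
    (j : ℕ) (hj : ∀ b : ℕ, b < j → (b : F) + 1 ≠ 0) :
    (taylor (-(j : F)) f).coeff 0 = ja F j ∧ (taylor (-(j : F)) f).coeff 1 = jb F j := by
  induction j with
  | zero =>
    have e : -((0 : ℕ) : F) = 0 := by simp
    rw [e, taylor_zero, ja_zero, jb_zero]
    exact ⟨f0, f1⟩
  | succ j ih =>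
    obtain ⟨i0, i1⟩ := ih (fun n hn => hj n (Nat.lt_succ_of_lt hn))
    have hj1 := hj j (Nat.lt_succ_self j)
    have e : -((j + 1 : ℕ) : F) + 1 = -(j : F) := by push_cast; ring
    have r0 := jrec4_0 hf (-((j + 1 : ℕ) : F))
    have r1 := jrec4_1 hf (-((j + 1 : ℕ) : F))
    rw [e] at r0 r1
    rw [i0] at r0 r1
    rw [i1] at r1
    push_cast at r0 r1
    have hj4 : 4 * ((j : F) + 1) ≠ 0 := mul_ne_zero h4 hj1
    have q0 : (taylor (-((j + 1 : ℕ) : F)) f).coeff 0 = ja F (j + 1) := by
      rw [ja_succ]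
      push_cast
      have h3 : (taylor (-((j : F) + 1)) f).coeff 0 =
          (4 * (j : F) + 3) * ja F j / (4 * ((j : F) + 1)) := by
        rw [eq_div_iff hj4]
        linear_combination r0
      rw [h3]
      field_simp
    have q1 : (taylor (-((j + 1 : ℕ) : F)) f).coeff 1 = jb F (j + 1) := by
      rw [ja_succ] at q0
      rw [jb_succ]
      push_cast at q0 ⊢
      have h3 : (taylor (-((j : F) + 1)) f).coeff 1 =
          (4 * (taylor (-((j : F) + 1)) f).coeff 0 - 4 * ja F j +
            (4 * (j : F) + 3) * jb F j) / (4 * ((j : F) + 1)) := by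
        rw [eq_div_iff hj4]
        linear_combination r1
      rw [h3, q0]
      field_simp
      ring
    exact ⟨q0, q1⟩

theorem jet_pos4 {F : Type} [Field F] (h4 : (4 : F) ≠ 0) (f : F[X])
    (hf : (4 * X + 1) * f.comp (X + 1) = 4 * X * f) (f0 : f.coeff 0 = 1) (i : ℕ)
    (hi : ∀ b : ℕ, b < i → 4 * ((b : F) + 1) + 1 ≠ 0) :
    (taylor ((i : F) + 1) f).coeff 0 = 0 ∧ (taylor ((i : F) + 1) f).coeff 1 = 4 * rho F i := by
  induction i with
  | zero =>
    have r0 := jrec4_0 hf 0
    have r1 := jrec4_1 hf 0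
    rw [taylor_zero] at r0 r1
    rw [f0] at r0 r1
    simp only [mul_zero, zero_add, one_mul, zero_mul, mul_one, add_zero] at r0 r1
    rw [r0] at r1
    simp only [mul_zero, zero_add] at r1
    simp only [Nat.cast_zero, zero_add, rho, prod_range_zero, mul_one]
    exact ⟨r0, r1⟩
  | succ i ih =>
    obtain ⟨i0, i1⟩ := ih (fun n hn => hi n (Nat.lt_succ_of_lt hn))
    have hi1 := hi i (Nat.lt_succ_self i)
    have r0 := jrec4_0 hf ((i : F) + 1)
    have r1 := jrec4_1 hf ((i : F) + 1)
    rw [i0] at r0 r1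
    rw [i1] at r1
    have s0 : rho F (i + 1) = rho F i * ((4 * ((i : F) + 1)) / (4 * ((i : F) + 1) + 1)) := by
      rw [rho, rho, prod_range_succ]
    have q0 : (taylor ((i : F) + 1 + 1) f).coeff 0 = 0 := by
      rw [mul_zero] at r0
      exact (mul_eq_zero.mp r0).resolve_left hi1
    have q1 : (taylor ((i : F) + 1 + 1) f).coeff 1 = 4 * rho F (i + 1) := by
      have : (taylor ((i : F) + 1 + 1) f).coeff 1 =
          (4 * ((i : F) + 1)) * (4 * rho F i) / (4 * ((i : F) + 1) + 1) := by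
        rw [eq_div_iff hi1]
        rw [q0] at r1
        linear_combination r1
      rw [this, s0]
      field_simp
    push_cast
    exact ⟨q0, q1⟩

end Pool.Agent.H78.NQ
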