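import Pool.Agent.H78.NQ.Defs
import Pool.Agent.H11.NW.Red

/-!
# NQ Red4: reduction modulo `p`
-/

set_option autoImplicit false

namespace Pool.Agent.H78.NQ

open Finset
open Pool.Agent.H11.NW (H Wf Red red_H nat_ne)

section

variable {p : ℕ} [hpf : Fact p.Prime]

theorem four_ne (hp : 3 < p) : (4 : ZMod p) ≠ 0 := by
  have h2 : (2 : ZMod p) ≠ 0 := by
    have := nat_ne (p := p) (n := 2) (by omega) (by omega)
    simpa using this
  have h4 : (4 : ZMod p) = 2 * 2 := by norm_num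
  rw [h4]
  exact mul_ne_zero h2 h2

theorem red_jab (hp : 3 < p) (j : ℕ) (hj : j < p) :
    Red p (ja ℚ j) (ja (ZMod p) j) ∧ Red p (jb ℚ j) (jb (ZMod p) j) := by
  induction j with
  | zero => exact ⟨by simpa using Red.one (p := p), by simpa using Red.zero (p := p)⟩
  | succ j ih =>
    obtain ⟨ha, hb⟩ := ih (by omega)
    have hj1 : (j : ZMod p) + 1 ≠ 0 := by
      have := nat_ne (p := p) (n := j + 1) (by omega) (by omega)
      simpa using this
    have h34 : Red p ((j : ℚ) + 3 / 4) ((j : ZMod p) + 3 / 4) :=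
      (Red.nat j).add ((Red.ofNat 3).div (Red.ofNat 4) (four_ne hp))
    have hd : Red p ((j : ℚ) + 1) ((j : ZMod p) + 1) := (Red.nat j).add Red.one
    have hA : Red p (ja ℚ j * ((j : ℚ) + 3 / 4) / ((j : ℚ) + 1))
        (ja (ZMod p) j * ((j : ZMod p) + 3 / 4) / ((j : ZMod p) + 1)) := (ha.mul h34).div hd hj1
    refine ⟨?_, ?_⟩
    · rw [ja_succ, ja_succ]; exact hA
    · rw [jb_succ, jb_succ]; exact (((h34.mul hb).sub ha).add hA).div hd hj1

theorem red_rho (n : ℕ) (hn : 4 * n + 1 < p) : Red p (rho ℚ n) (rho (ZMod p) n) := by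
  unfold rho
  refine Red.prod _ fun j hj => ?_
  rw [mem_range] at hj
  refine ((Red.ofNat 4).mul ((Red.nat j).add Red.one)).div
    (((Red.ofNat 4).mul ((Red.nat j).add Red.one)).add Red.one) ?_
  have := nat_ne (p := p) (n := 4 * (j + 1) + 1) (by omega) (by omega)
  simpa using this

theorem red_TN (hp : 3 < p) (k j : ℕ) (h1 : 4 * k < p) (hj : j ≤ 3 * k) :
    Red p (TN ℚ k j) (TN (ZMod p) k j) := by
  unfold TN
  obtain ⟨a1, a2⟩ := red_jab (p := p) hp j (by omega)
  have a3 := red_H (p := p) (3 * k - j) (by omega)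
  have a4 := red_H (p := p) (k + j) (by omega)
  exact ((Red.nat _).mul (a2.sub (((Red.ofNat 2).mul a1).mul (a3.sub a4)))).add a1

theorem red_TP (k i : ℕ) (h1 : 4 * k < p) (hi : i < k) :
    Red p (TP ℚ k i) (TP (ZMod p) k i) := by
  unfold TP
  exact ((Red.ofNat 4).mul (red_rho i (by omega))).mul (Red.nat _)

end

theorem J_red (p : ℕ) [Fact p.Prime] (hp : 3 < p) (k : ℕ) (h1 : 4 * k < p) :
    Red p (J ℚ k) (J (ZMod p) k) := by
  unfold J
  refine (Red.sum _ fun j hj => ?_).add (Red.sum _ fun i hi => ?_)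
  · rw [mem_range] at hj
    exact ((Red.nat _).pow 2).mul (red_TN hp k j h1 (by omega))
  · rw [mem_range] at hi
    exact ((Red.nat _).pow 2).mul (red_TP k i h1 (by omega))

end Pool.Agent.H78.NQ
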