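import Pool.Agent.H78.NQ.Defs

/-!
# NQ Size4

PROOF. `0 ≤ ja ≤ 1`, `0 ≤ rho ≤ 1`, `|jb j| ≤ 2 j` (induction), `H_n ≤ n`, `binom(4k, ·) ≤ 2^(4k)`.
-/

set_option autoImplicit false

namespace Pool.Agent.H78.NQ

open Finset
open Pool.Agent.H11.NW (H Wf)

private theorem size4_H (n : ℕ) : |H ℚ n| ≤ n := by
  unfold H
  refine (abs_sum_le_sum_abs _ _).trans ?_
  refine (sum_le_card_nsmul _ _ 1 fun j _ => ?_).trans (by simp)
  rw [abs_of_nonneg (by positivity), div_le_one (by positivity)]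
  have : (0 : ℚ) ≤ j := by positivity
  linarith

private theorem size4_ja (j : ℕ) : 0 ≤ ja ℚ j ∧ ja ℚ j ≤ 1 := by
  induction j with
  | zero => simp
  | succ j ih =>
    obtain ⟨h0, h1⟩ := ih
    have hj : (0 : ℚ) ≤ j := by positivity
    rw [ja_succ]
    constructor
    · positivity
    · rw [div_le_one (by positivity)]
      nlinarith

private theorem size4_jb (j : ℕ) : |jb ℚ j| ≤ 2 * j := by
  induction j with
  | zero => simp
  | succ j ih =>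
    have hj : (0 : ℚ) ≤ j := by positivity
    obtain ⟨h0, h1⟩ := size4_ja j
    obtain ⟨h2, h3⟩ := size4_ja (j + 1)
    rw [jb_succ, ← ja_succ, abs_div, abs_of_nonneg (by positivity : (0 : ℚ) ≤ (j : ℚ) + 1),
      div_le_iff₀ (by positivity)]
    obtain ⟨ih1, ih2⟩ := abs_le.1 ih
    have e1 : ((j : ℚ) + 3 / 4) * jb ℚ j ≤ ((j : ℚ) + 3 / 4) * (2 * j) :=
      mul_le_mul_of_nonneg_left ih2 (by positivity)
    have e2 : ((j : ℚ) + 3 / 4) * (-(2 * j)) ≤ ((j : ℚ) + 3 / 4) * jb ℚ j :=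
      mul_le_mul_of_nonneg_left ih1 (by positivity)
    push_cast
    rw [abs_le]
    constructor <;> nlinarith

private theorem size4_rho (i : ℕ) : |rho ℚ i| ≤ 1 := by
  unfold rho
  rw [Finset.abs_prod]
  refine prod_le_one (fun j _ => abs_nonneg _) fun j _ => ?_
  rw [abs_of_nonneg (by positivity), div_le_one (by positivity)]
  linarith

private theorem size4_TN (k j : ℕ) (hk : 1 ≤ k) (hj : j ≤ 3 * k) :
    |TN ℚ k j| ≤ 61 * (k : ℚ) ^ 2 := by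
  unfold TN
  have hk' : (1 : ℚ) ≤ k := by exact_mod_cast hk
  have hj' : (j : ℚ) ≤ 3 * k := by exact_mod_cast hj
  obtain ⟨a0, a1⟩ := size4_ja j
  have b1 := size4_jb j
  have b2 := size4_H (3 * k - j)
  have b3 := size4_H (k + j)
  have c1 : ((3 * k - j : ℕ) : ℚ) ≤ 3 * k := by
    have : 3 * k - j ≤ 3 * k := Nat.sub_le _ _
    exact_mod_cast this
  push_cast at b3
  have e1 : |jb ℚ j - 2 * ja ℚ j * (H ℚ (3 * k - j) - H ℚ (k + j))| ≤ 20 * k := by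
    refine (abs_sub _ _).trans ?_
    rw [abs_mul, abs_mul, abs_two, abs_of_nonneg a0]
    have e2 : |H ℚ (3 * k - j) - H ℚ (k + j)| ≤ 7 * k := by
      refine (abs_sub _ _).trans ?_
      linarith
    have e3 : 2 * ja ℚ j * |H ℚ (3 * k - j) - H ℚ (k + j)| ≤ 2 * 1 * (7 * k) :=
      mul_le_mul (by linarith) e2 (abs_nonneg _) (by norm_num)
    linarith
  refine (abs_add_le _ _).trans ?_
  rw [abs_mul, abs_of_nonneg a0, abs_of_nonneg (by positivity : (0 : ℚ) ≤ ((3 * k - j : ℕ) : ℚ))]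
  have e4 := mul_le_mul c1 e1 (abs_nonneg _) (by positivity)
  nlinarith

private theorem size4_TP (k i : ℕ) (hi : i < k) : |TP ℚ k i| ≤ 16 * (k : ℚ) := by
  unfold TP
  have h1 : (((3 * k + i + 1 : ℕ) : ℚ)) ≤ 4 * k := by
    have : 3 * k + i + 1 ≤ 4 * k := by omega
    exact_mod_cast this
  rw [abs_mul, abs_mul, abs_of_nonneg (by positivity : (0 : ℚ) ≤ ((3 * k + i + 1 : ℕ) : ℚ)),
    abs_of_pos (by norm_num : (0 : ℚ) < 4)]
  have h2 := size4_rho i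
  calc 4 * |rho ℚ i| * ((3 * k + i + 1 : ℕ) : ℚ) ≤ 4 * 1 * (4 * k) :=
        mul_le_mul (by linarith) h1 (by positivity) (by norm_num)
    _ = 16 * (k : ℚ) := by ring

private theorem size4_choose (k j : ℕ) : |((4 * k).choose j : ℚ)| ≤ 2 ^ (4 * k) := by
  rw [abs_of_nonneg (by positivity)]
  exact_mod_cast Nat.choose_le_two_pow _ _

theorem J_size (k : ℕ) (hk : 1 ≤ k) : |J ℚ k| ≤ 10 ^ 6 * (k : ℚ) ^ 4 * 2 ^ (8 * k) := by
  have hk' : (1 : ℚ) ≤ k := by exact_mod_cast hk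
  have hp : (2 : ℚ) ^ (8 * k) = (2 ^ (4 * k)) ^ 2 := by rw [← pow_mul]; ring_nf
  unfold J
  refine (abs_add_le _ _).trans ?_
  have s1 : |∑ j ∈ range (3 * k + 1), ((4 * k).choose (k + j) : ℚ) ^ 2 * TN ℚ k j| ≤
      (3 * (k : ℚ) + 1) * (2 ^ (8 * k) * (61 * (k : ℚ) ^ 2)) := by
    refine (abs_sum_le_sum_abs _ _).trans ?_
    refine (sum_le_card_nsmul _ _ (2 ^ (8 * k) * (61 * (k : ℚ) ^ 2)) fun j hj => ?_).trans
      (by simp)
    rw [abs_mul, abs_pow, hp]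
    have hj' : j ≤ 3 * k := by have := mem_range.1 hj; omega
    exact mul_le_mul (pow_le_pow_left₀ (abs_nonneg _) (size4_choose k _) 2) (size4_TN k j hk hj')
      (abs_nonneg _) (by positivity)
  have s2 : |∑ i ∈ range k, ((4 * k).choose (3 * k + i + 1) : ℚ) ^ 2 * TP ℚ k i| ≤
      (k : ℚ) * (2 ^ (8 * k) * (16 * (k : ℚ))) := by
    refine (abs_sum_le_sum_abs _ _).trans ?_
    refine (sum_le_card_nsmul _ _ (2 ^ (8 * k) * (16 * (k : ℚ))) fun i hi => ?_).trans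
      (by simp)
    rw [abs_mul, abs_pow, hp]
    exact mul_le_mul (pow_le_pow_left₀ (abs_nonneg _) (size4_choose k _) 2)
      (size4_TP k i (mem_range.1 hi)) (abs_nonneg _) (by positivity)
  have hq : (0 : ℚ) < 2 ^ (8 * k) := by positivity
  have q1 : (k : ℚ) ^ 3 ≤ (k : ℚ) ^ 4 := pow_le_pow_right₀ hk' (by norm_num)
  have q2 : (k : ℚ) ^ 2 ≤ (k : ℚ) ^ 4 := pow_le_pow_right₀ hk' (by norm_num)
  have q3 : (0 : ℚ) < (k : ℚ) ^ 4 := by positivity
  refine (add_le_add s1 s2).trans ?_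
  have : (3 * (k : ℚ) + 1) * (61 * (k : ℚ) ^ 2) + k * (16 * (k : ℚ)) ≤ 10 ^ 6 * (k : ℚ) ^ 4 := by
    nlinarith
  calc (3 * (k : ℚ) + 1) * (2 ^ (8 * k) * (61 * (k : ℚ) ^ 2)) + k * (2 ^ (8 * k) * (16 * (k : ℚ)))
      = ((3 * (k : ℚ) + 1) * (61 * (k : ℚ) ^ 2) + k * (16 * (k : ℚ))) * 2 ^ (8 * k) := by ring
    _ ≤ 10 ^ 6 * (k : ℚ) ^ 4 * 2 ^ (8 * k) := mul_le_mul_of_nonneg_right this hq.le

end Pool.Agent.H78.NQ
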