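import Pool.Agent.H78.NQ.Uw

/-!
# NQ Spec: `J k` is integral at the special primes (helper13)

PROOF. Let `l = 3 mod 4` be a prime with `3k < l ≤ 4k` or `3k < 2l ≤ 4k`, `k ≥ 2`; `v` the `l`-adic valuation.
Every term of `J ℚ k` has `v ≥ 0`.  Positive nodes: `l` does not divide `4 (b+1) + 1 ≤ 4 k - 3` for `b + 1 ≤ k - 1`
(`4 (b+1) + 1 = l m` needs `m = 3 mod 4`, so `m ≥ 3`, `3 l > 4 k`). Negative nodes, `j ≤ 3k`:
`v(ja j) = #{b < j : l ∣ 4b+3} - v(j!)`; the multiples of `l` among the `4b+3 < 12k` are `l` and `5l` only, that is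
`b = (l-3)/4` and `b = (5l-3)/4`, and `j! ` contains `l` at most once (`j ≤ 3k < 2l`). So `v(ja j) ≥ 0`, and
`v(ja j) ≥ 1` if `(l+1)/4 ≤ j < l` or `j ≥ (5l+1)/4`. `v(H_n) ≥ -1` for `n ≤ 4k` (`< l^2`), `v(H_n) ≥ 0` for `n < l`,
`v(O4 j) ≥ -1`, `v(O4 j) ≥ 0` for `j < (l+1)/4`; `jb_closed`.
`l > 3k`: `H_(3k-j)` integral; `jb j` integral; `H_(k+j)` not integral only if `j ≥ l - k ≥ (l+1)/4`, and then `v(ja j) ≥ 1`.
`3k < 2l ≤ 4k`: `v(binom(4k,k+j)) = 2 - [(3k-j)/l] - [(k+j)/l]` (one carry count); if `≥ 1`, the square compensates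
`v ≥ -1`. If it is 0: either `l-k ≤ j ≤ 3k-l`, where `(l+1)/4 ≤ j < l`; or `j ≥ 2l-k ≥ (5l+1)/4`; in both cases
`v(ja j) ≥ 1`, so everything is integral.
-/

set_option autoImplicit false

namespace Pool.Agent.H78.NQ

open Finset
open Pool.Agent.H11.NW (H Wf)

namespace Spec

/-- `x` is `l`-integral -/
def LI (l : ℕ) (x : ℚ) : Prop := ∃ c z : ℤ, ¬ (l : ℤ) ∣ c ∧ (z : ℚ) = c * x

section
variable {l : ℕ} (hl : l.Prime)
include hl

theorem LI.int (z : ℤ) : LI l z :=
  ⟨1, z, by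
    intro h
    have := Int.eq_one_of_dvd_one (by positivity) h
    exact hl.one_lt.ne' (by exact_mod_cast this), by simp⟩

theorem LI.nat (n : ℕ) : LI l n := by exact_mod_cast LI.int hl (n : ℤ)

theorem LI.add {x y : ℚ} (hx : LI l x) (hy : LI l y) : LI l (x + y) := by
  obtain ⟨c, z, h1, h2⟩ := hx
  obtain ⟨d, w, h3, h4⟩ := hy
  refine ⟨c * d, z * d + w * c, ?_, ?_⟩
  · intro h
    rcases (Nat.prime_iff_prime_int.1 hl).dvd_or_dvd h with h | h
    · exact h1 h
    · exact h3 h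
  · push_cast
    rw [h2, h4]; ring

theorem LI.mul {x y : ℚ} (hx : LI l x) (hy : LI l y) : LI l (x * y) := by
  obtain ⟨c, z, h1, h2⟩ := hx
  obtain ⟨d, w, h3, h4⟩ := hy
  refine ⟨c * d, z * w, ?_, ?_⟩
  · intro h
    rcases (Nat.prime_iff_prime_int.1 hl).dvd_or_dvd h with h | h
    · exact h1 h
    · exact h3 h
  · push_cast
    rw [h2, h4]; ring

theorem LI.sub {x y : ℚ} (hx : LI l x) (hy : LI l y) : LI l (x - y) := by
  have h : x - y = x + ((-1 : ℤ) : ℚ) * y := by push_cast; ring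
  rw [h]
  exact LI.add hl hx (LI.mul hl (LI.int hl _) hy)

theorem LI.sum {ι : Type} (s : Finset ι) (f : ι → ℚ) (h : ∀ i ∈ s, LI l (f i)) :
    LI l (∑ i ∈ s, f i) := by
  classical
  induction s using Finset.induction_on with
  | empty => simpa using LI.int hl 0
  | insert a s ha ih =>
    rw [sum_insert ha]
    exact LI.add hl (h a (mem_insert_self _ _)) (ih fun i hi => h i (mem_insert_of_mem hi))

theorem LI.prod {ι : Type} (s : Finset ι) (f : ι → ℚ) (h : ∀ i ∈ s, LI l (f i)) :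
    LI l (∏ i ∈ s, f i) := by
  classical
  induction s using Finset.induction_on with
  | empty => simpa using LI.int hl 1
  | insert a s ha ih =>
    rw [prod_insert ha]
    exact LI.mul hl (h a (mem_insert_self _ _)) (ih fun i hi => h i (mem_insert_of_mem hi))

/-- quotient of an integer by an integer prime to `l` -/
theorem LI.div (a : ℤ) (n : ℕ) (hn : ¬ l ∣ n) : LI l ((a : ℚ) / n) := by
  have h0 : (n : ℚ) ≠ 0 := by
    intro h
    have : n = 0 := by exact_mod_cast h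
    exact hn (this ▸ dvd_zero _)
  refine ⟨n, a, ?_, ?_⟩
  · intro h; exact hn (by exact_mod_cast h)
  · push_cast
    field_simp

/-- `l / (l m)` with `m` prime to `l`, or `l / n` with `n` prime to `l` -/
theorem LI.l_div (a : ℤ) (n : ℕ) (hn : ¬ l ^ 2 ∣ n) : LI l ((l : ℚ) * ((a : ℚ) / n)) := by
  by_cases h : l ∣ n
  · obtain ⟨m, rfl⟩ := h
    have hm : ¬ l ∣ m := by
      rintro ⟨t, rfl⟩
      exact hn ⟨t, by ring⟩
    have hl0 : (l : ℚ) ≠ 0 := by exact_mod_cast hl.ne_zero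
    have hm0 : (m : ℚ) ≠ 0 := by
      intro h
      have : m = 0 := by exact_mod_cast h
      exact hm (this ▸ dvd_zero _)
    have : (l : ℚ) * ((a : ℚ) / ((l * m : ℕ) : ℚ)) = (a : ℚ) / m := by
      push_cast; field_simp
    rw [this]
    exact LI.div hl a m hm
  · exact LI.mul hl (LI.nat hl l) (LI.div hl a n h)

theorem H_LI (n : ℕ) (hn : n < l) : LI l (H ℚ n) := by
  unfold H
  refine LI.sum hl _ _ fun j hj => ?_
  have hj' := mem_range.1 hj
  have : (1 : ℚ) / ((j : ℚ) + 1) = ((1 : ℤ) : ℚ) / ((j + 1 : ℕ) : ℚ) := by push_cast; rfl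
  rw [this]
  refine LI.div hl 1 (j + 1) fun h => ?_
  have := Nat.le_of_dvd (by omega) h
  omega

theorem lH_LI (n : ℕ) (hn : n < l ^ 2) : LI l (l * H ℚ n) := by
  unfold H
  rw [mul_sum]
  refine LI.sum hl _ _ fun j hj => ?_
  have hj' := mem_range.1 hj
  have : (1 : ℚ) / ((j : ℚ) + 1) = ((1 : ℤ) : ℚ) / ((j + 1 : ℕ) : ℚ) := by push_cast; rfl
  rw [this]
  refine LI.l_div hl 1 (j + 1) fun h => ?_
  have := Nat.le_of_dvd (by omega) h
  omega

theorem O4_LI (n : ℕ) (hn : 4 * n < l + 1) (h4 : l % 4 = 3) : LI l (O4 n) := by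
  unfold O4
  refine LI.sum hl _ _ fun j hj => ?_
  have hj' := mem_range.1 hj
  have : (4 : ℚ) / (4 * (j : ℚ) + 3) = ((4 : ℤ) : ℚ) / ((4 * j + 3 : ℕ) : ℚ) := by push_cast; rfl
  rw [this]
  refine LI.div hl 4 (4 * j + 3) fun h => ?_
  have := Nat.le_of_dvd (by omega) h
  omega

theorem lO4_LI (n : ℕ) (hn : 4 * n ≤ 8 * l) (h4 : l % 4 = 3) : LI l (l * O4 n) := by
  unfold O4
  rw [mul_sum]
  refine LI.sum hl _ _ fun j hj => ?_
  have hj' := mem_range.1 hj
  have : (4 : ℚ) / (4 * (j : ℚ) + 3) = ((4 : ℤ) : ℚ) / ((4 * j + 3 : ℕ) : ℚ) := by push_cast; rfl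
  rw [this]
  refine LI.l_div hl 4 (4 * j + 3) ?_
  rintro ⟨t, ht⟩
  -- `4 j + 3 = l^2 t < 8 l`, so `l t < 8`, and `l * (l t) = 3 mod 4`
  have h1 : l * (l * t) < 8 * l := by
    calc l * (l * t) = 4 * j + 3 := by rw [ht]; ring
      _ < 8 * l := by omega
  have h2 : l * t < 8 := by
    by_contra h
    have := Nat.mul_le_mul_left l (not_lt.1 h)
    omega
  have hl3 : 3 ≤ l := by omega
  have ht2 : t < 3 := by
    by_contra h
    have := Nat.mul_le_mul hl3 (not_lt.1 h)
    omega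
  have hl8 : l ≤ 7 ∨ t = 0 := by
    rcases Nat.eq_zero_or_pos t with h | h
    · exact Or.inr h
    · left
      have := Nat.le_mul_of_pos_right l h
      omega
  rcases hl8 with h | h
  · have : l = 3 ∨ l = 7 := by omega
    interval_cases t <;> rcases this with rfl | rfl <;> omega
  · subst h; omega

/-- the product `∏ (4 b + 3)` over `b < j` -/
def PP (j : ℕ) : ℕ := ∏ b ∈ range j, (4 * b + 3)

omit hl in
theorem ja_PP (j : ℕ) : ja ℚ j = (PP j : ℚ) / ((4 ^ j * j.factorial : ℕ) : ℚ) := by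
  rw [ja_closed, PP]
  push_cast
  rfl

omit hl in
theorem l_dvd_PP (h4 : l % 4 = 3) (j : ℕ) (hj : l + 1 ≤ 4 * j) : l ∣ PP j := by
  have h : 4 * ((l - 3) / 4) + 3 = l := by omega
  have h2 : (l - 3) / 4 ∈ range j := mem_range.2 (by omega)
  have h3 := Finset.dvd_prod_of_mem (fun b => 4 * b + 3) h2
  simp only [h] at h3
  exact h3

omit hl in
theorem l2_dvd_PP (h4 : l % 4 = 3) (j : ℕ) (hj : 5 * l + 1 ≤ 4 * j) : l ^ 2 ∣ PP j := by
  have h : 4 * ((l - 3) / 4) + 3 = l := by omega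
  have h' : 4 * ((5 * l - 3) / 4) + 3 = 5 * l := by omega
  have h2 : (l - 3) / 4 ∈ range j := mem_range.2 (by omega)
  have h2' : (5 * l - 3) / 4 ∈ (range j).erase ((l - 3) / 4) :=
    mem_erase.2 ⟨by omega, mem_range.2 (by omega)⟩
  have h3 : PP j = (4 * ((l - 3) / 4) + 3) * ∏ b ∈ (range j).erase ((l - 3) / 4), (4 * b + 3) := by
    rw [PP, Finset.mul_prod_erase (range j) (fun b => 4 * b + 3) h2]
  have h4' := Finset.dvd_prod_of_mem (fun b => 4 * b + 3) h2'
  simp only [h'] at h4'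
  rw [h3, h, sq]
  exact mul_dvd_mul_left l ((Dvd.intro_left 5 rfl).trans h4')

theorem fact_split (j : ℕ) (h1 : l ≤ j) (h2 : j < 2 * l) :
    ∃ u : ℕ, ¬ l ∣ u ∧ j.factorial = l * u := by
  induction j, h1 using Nat.le_induction with
  | base =>
    refine ⟨(l - 1).factorial, ?_, ?_⟩
    · rw [hl.dvd_factorial]
      have := hl.pos
      omega
    · rw [Nat.mul_factorial_pred hl.ne_zero]
  | succ n hn ih =>
    obtain ⟨u, hu, hu2⟩ := ih (by omega)
    refine ⟨(n + 1) * u, ?_, ?_⟩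
    · intro h
      rcases hl.dvd_mul.1 h with h | h
      · obtain ⟨t, ht⟩ := h
        have : t < 2 := by
          by_contra hh
          have := Nat.mul_le_mul_left l (not_lt.1 hh)
          omega
        interval_cases t <;> omega
      · exact hu h
    · rw [Nat.factorial_succ, hu2]; ring

theorem four_pow (h4 : l % 4 = 3) (j : ℕ) : ¬ l ∣ 4 ^ j := by
  intro h
  have h1 := hl.dvd_of_dvd_pow h
  have h2 := Nat.le_of_dvd (by norm_num) h1
  interval_cases l <;> omega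

/-- the three facts about `ja j` -/
theorem ja_facts (h4 : l % 4 = 3) (j : ℕ) (hj : j < 2 * l) :
    LI l (ja ℚ j) ∧
    ((l + 1 ≤ 4 * j ∧ j < l ∨ 5 * l + 1 ≤ 4 * j) → ∃ y : ℚ, LI l y ∧ ja ℚ j = l * y) := by
  have hl0 : (l : ℚ) ≠ 0 := by exact_mod_cast hl.ne_zero
  rcases Nat.lt_or_ge j l with h | h
  · have hd : ¬ l ∣ 4 ^ j * j.factorial := by
      intro hh
      rcases hl.dvd_mul.1 hh with hh | hh
      · exact four_pow hl h4 j hh
      · rw [hl.dvd_factorial] at hh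
        omega
    refine ⟨?_, fun hc => ?_⟩
    · rw [ja_PP]
      have := LI.div hl (PP j : ℤ) _ hd
      rwa [Int.cast_natCast] at this
    · obtain ⟨q, hq⟩ := l_dvd_PP h4 j (by omega)
      refine ⟨((q : ℤ) : ℚ) / ((4 ^ j * j.factorial : ℕ) : ℚ), LI.div hl (q : ℤ) _ hd, ?_⟩
      rw [ja_PP, hq]; push_cast; ring
  · obtain ⟨u, hu, hu2⟩ := fact_split hl j h hj
    have hd : ¬ l ∣ 4 ^ j * u := by
      intro hh
      rcases hl.dvd_mul.1 hh with hh | hh
      · exact four_pow hl h4 j hh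
      · exact hu hh
    have hd0 : ((4 ^ j * u : ℕ) : ℚ) ≠ 0 := by
      intro h
      have h' : 4 ^ j * u = 0 := by exact_mod_cast h
      exact hd (h' ▸ dvd_zero _)
    refine ⟨?_, fun hc => ?_⟩
    · obtain ⟨q, hq⟩ := l_dvd_PP h4 j (by omega)
      have : ja ℚ j = ((q : ℤ) : ℚ) / ((4 ^ j * u : ℕ) : ℚ) := by
        rw [ja_PP, hq, hu2]
        push_cast at hd0 ⊢
        field_simp
      rw [this]
      exact LI.div hl (q : ℤ) _ hd
    · obtain ⟨q, hq⟩ := l2_dvd_PP h4 j (by omega)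
      refine ⟨((q : ℤ) : ℚ) / ((4 ^ j * u : ℕ) : ℚ), LI.div hl (q : ℤ) _ hd, ?_⟩
      rw [ja_PP, hq, hu2]
      push_cast at hd0 ⊢
      field_simp

/-- the binomial coefficient is divisible by `l` unless one of the two carry patterns occurs -/
theorem choose_dvd (n a b : ℕ) (hn : n = a + b) (h2 : 2 * l ≤ n)
    (hc : (a < l ∧ b < 2 * l) ∨ (a < 2 * l ∧ b < l)) : l ∣ n.choose a := by
  by_contra hC
  have h1 : l ^ 2 ∣ n.factorial := by
    have h3 : l ∣ l.factorial := Nat.dvd_factorial hl.pos le_rfl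
    have h4 : l ^ 2 ∣ l.factorial * l.factorial := by rw [sq]; exact mul_dvd_mul h3 h3
    have h5 : l.factorial * l.factorial ∣ (l + l).factorial :=
      Nat.factorial_mul_factorial_dvd_factorial_add l l
    exact (h4.trans h5).trans (Nat.factorial_dvd_factorial (by omega))
  have h3 : n.choose a * (a.factorial * b.factorial) = n.factorial := by
    rw [← mul_assoc]
    have := Nat.choose_mul_factorial_mul_factorial (n := n) (k := a) (by omega)
    rw [show n - a = b by omega] at this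
    exact this
  have h4 : l ^ 2 ∣ a.factorial * b.factorial := by
    have hco : Nat.Coprime (l ^ 2) (n.choose a) :=
      Nat.Coprime.pow_left 2 ((Nat.Prime.coprime_iff_not_dvd hl).2 hC)
    rw [← h3] at h1
    exact hco.dvd_of_dvd_mul_left h1
  -- but the factorials contain `l` at most once
  have key : ∀ a b : ℕ, a < l → b < 2 * l → ¬ l ^ 2 ∣ a.factorial * b.factorial := by
    intro a b ha hb h
    have ha' : ¬ l ∣ a.factorial := by rw [hl.dvd_factorial]; omega
    rcases Nat.lt_or_ge b l with hb' | hb'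
    · have hb'' : ¬ l ∣ b.factorial := by rw [hl.dvd_factorial]; omega
      have := (Dvd.intro_left l (sq l).symm).trans h
      rcases hl.dvd_mul.1 this with h | h
      · exact ha' h
      · exact hb'' h
    · obtain ⟨u, hu, hu2⟩ := fact_split hl b hb' hb
      rw [hu2, sq, show a.factorial * (l * u) = l * (a.factorial * u) by ring] at h
      have := Nat.dvd_of_mul_dvd_mul_left hl.pos h
      rcases hl.dvd_mul.1 this with h | h
      · exact ha' h
      · exact hu h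
  rcases hc with ⟨h5, h6⟩ | ⟨h5, h6⟩
  · exact key a b h5 h6 h4
  · rw [mul_comm] at h4
    exact key b a h6 h5 h4

end

end Spec

open Spec in
theorem J_spec (k : ℕ) (hk : 2 ≤ k) (l : ℕ) (hl : l.Prime) (hs : Special k l) :
    ∃ c z : ℤ, ¬ (l : ℤ) ∣ c ∧ (z : ℚ) = c * J ℚ k := by
  obtain ⟨h4, hs⟩ := hs
  -- common inequalities
  have h32 : 3 * k < 2 * l := by omega
  have hlk : l ≤ 4 * k := by omega
  have hll : 4 * k < l ^ 2 := by
    have h1 : 2 ≤ l := hl.two_le
    have h2 : 3 ≤ l := by omega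
    have : 3 * l ≤ l ^ 2 := by rw [sq]; exact Nat.mul_le_mul_right l h2
    omega
  change LI l (J ℚ k)
  unfold J
  refine LI.add hl (LI.sum hl _ _ fun j hj => ?_) (LI.sum hl _ _ fun i hi => ?_)
  · have hj' := mem_range.1 hj
    have hj3 : j ≤ 3 * k := by omega
    obtain ⟨ha, hay⟩ := ja_facts hl h4 j (by omega)
    -- the bracket
    set X : ℚ := H ℚ j - O4 j - 2 * (H ℚ (3 * k - j) - H ℚ (k + j)) with hX
    have hTN : TN ℚ k j = ((3 * k - j : ℕ) : ℚ) * (ja ℚ j * X) + ja ℚ j := by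
      unfold TN
      rw [jb_closed, hX]; ring
    have hlX : LI l (l * X) := by
      have e : (l : ℚ) * X = l * H ℚ j - l * O4 j
          - ((2 : ℕ) : ℚ) * (l * H ℚ (3 * k - j) - l * H ℚ (k + j)) := by
        rw [hX]; push_cast; ring
      rw [e]
      exact LI.sub hl (LI.sub hl (lH_LI hl _ (by omega)) (lO4_LI hl _ (by omega) h4))
        (LI.mul hl (LI.nat hl 2) (LI.sub hl (lH_LI hl _ (by omega)) (lH_LI hl _ (by omega))))
    rw [hTN]
    -- case B: `ja j` divisible by `l`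
    have caseB : (∃ y : ℚ, LI l y ∧ ja ℚ j = l * y) →
        LI l (((4 * k).choose (k + j) : ℚ) ^ 2 * (((3 * k - j : ℕ) : ℚ) * (ja ℚ j * X) + ja ℚ j)) := by
      rintro ⟨y, hy, hy2⟩
      have h1 : LI l (ja ℚ j * X) := by
        rw [hy2, show (l : ℚ) * y * X = y * (l * X) by ring]
        exact LI.mul hl hy hlX
      rw [sq]
      exact LI.mul hl (LI.mul hl (LI.nat hl _) (LI.nat hl _))
        (LI.add hl (LI.mul hl (LI.nat hl _) h1) ha)
    -- case A: the binomial coefficient divisible by `l`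
    have caseA : l ∣ (4 * k).choose (k + j) →
        LI l (((4 * k).choose (k + j) : ℚ) ^ 2 * (((3 * k - j : ℕ) : ℚ) * (ja ℚ j * X) + ja ℚ j)) := by
      rintro ⟨t, ht⟩
      have e : ((4 * k).choose (k + j) : ℚ) ^ 2 * (((3 * k - j : ℕ) : ℚ) * (ja ℚ j * X) + ja ℚ j)
          = (t : ℚ) * ((4 * k).choose (k + j) : ℚ) * (((3 * k - j : ℕ) : ℚ) * (ja ℚ j * (l * X)))
            + ((4 * k).choose (k + j) : ℚ) * ((4 * k).choose (k + j) : ℚ) * ja ℚ j := by
        have : ((4 * k).choose (k + j) : ℚ) = l * t := by rw [ht]; push_cast; ring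
        rw [this]; ring
      rw [e]
      exact LI.add hl (LI.mul hl (LI.mul hl (LI.nat hl _) (LI.nat hl _))
        (LI.mul hl (LI.nat hl _) (LI.mul hl ha hlX)))
        (LI.mul hl (LI.mul hl (LI.nat hl _) (LI.nat hl _)) ha)
    rcases hs with ⟨h5, h6⟩ | ⟨h5, h6⟩
    · -- `3 k < l`
      by_cases h7 : l + 1 ≤ 4 * j
      · exact caseB (hay (Or.inl ⟨h7, by omega⟩))
      · have hXI : LI l X := by
          rw [hX]
          have e : (2 : ℚ) = ((2 : ℕ) : ℚ) := by norm_num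
          rw [e]
          exact LI.sub hl (LI.sub hl (H_LI hl _ (by omega)) (O4_LI hl _ (by omega) h4))
            (LI.mul hl (LI.nat hl 2) (LI.sub hl (H_LI hl _ (by omega)) (H_LI hl _ (by omega))))
        rw [sq]
        exact LI.mul hl (LI.mul hl (LI.nat hl _) (LI.nat hl _))
          (LI.add hl (LI.mul hl (LI.nat hl _) (LI.mul hl ha hXI)) ha)
    · -- `3 k < 2 l ≤ 4 k`
      by_cases h8 : (k + j < l ∧ 3 * k - j < 2 * l) ∨ (k + j < 2 * l ∧ 3 * k - j < l)
      · exact caseA (choose_dvd hl (4 * k) (k + j) (3 * k - j) (by omega) (by omega) h8)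
      · refine caseB (hay ?_)
        omega
  · have hi' := mem_range.1 hi
    unfold TP
    have hr : LI l (rho ℚ i) := by
      unfold rho
      refine LI.prod hl _ _ fun b hb => ?_
      have hb' := mem_range.1 hb
      have e : (4 * ((b : ℚ) + 1)) / (4 * ((b : ℚ) + 1) + 1)
          = (((4 * (b + 1) : ℕ) : ℤ) : ℚ) / ((4 * (b + 1) + 1 : ℕ) : ℚ) := by push_cast; rfl
      rw [e]
      refine LI.div hl _ _ ?_
      rintro ⟨m, hm⟩
      have hm3 : m < 3 := by
        by_contra hh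
        have := Nat.mul_le_mul_left l (not_lt.1 hh)
        omega
      interval_cases m <;> omega
    have e : (4 : ℚ) = ((4 : ℕ) : ℚ) := by norm_num
    rw [e, sq]
    exact LI.mul hl (LI.mul hl (LI.nat hl _) (LI.nat hl _))
      (LI.mul hl (LI.mul hl (LI.nat hl _) hr) (LI.nat hl _))

end Pool.Agent.H78.NQ
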