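import Pool.Agent.H78.NQ.Uw
import Pool.Agent.H11.NW.Val

/-!
# NQ Val4: `J (2^m) ≠ 0`

PROOF (`v` = 2-adic valuation, `k = 2^m`). `ja_closed`: `v(ja j) = -2j - v(j!) = s_2(j) - 3j ≥ -3j`, and for
`j = 3k = 3 * 2^m`: `v(ja (3k)) = 2 - 9k`. The node `j = 3k` has the term `1 * ja (3k)`. For `j < 3k`, `i = 3k - j ≥ 1`:
`v(binom(2^(m+2), k+j)) = m + 2 - v(i)`; `T = ja j (i P + 1)`, `P = H_j - O4 j - 2 (H_(3k-j) - H_(k+j))`, all indices
`< 2^(m+2)`, so `v(P) ≥ -(m+1)`; the total valuation is at least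
`2 (m+2-v(i)) + min(0, v(i) - (m+1)) - 3j ≥ m + 3 - v(i) - 3j ≥ 3i + 2 - 9k > 2 - 9k`. Positive nodes: `≥ 0` (`rho` has odd
denominator). Compare `H11/NW/Val.lean`.
-/

set_option autoImplicit false

namespace Pool.Agent.H78.NQ

open Finset
open Pool.Agent.H11.NW (H Wf)
open Pool.Agent.H11.NW.Val

namespace Val4

theorem V_ja (j : ℕ) : V (-(3 * j : ℤ)) (ja ℚ j) := by
  obtain ⟨z, hz⟩ := ja_int j
  have h8 : (8 : ℚ) ^ j ≠ 0 := by positivity
  have e : ja ℚ j = (z : ℚ) / 4 ^ (j) / 2 ^ j := by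
    rw [hz, eq_div_iff (by positivity), eq_div_iff (by positivity), mul_assoc, ← mul_pow]
    norm_num
    ring
  have half : ∀ (t : ℕ) {n : ℤ} {x : ℚ}, V n x → V (n - t) (x / 2 ^ t) := by
    intro t
    induction t with
    | zero => intro n x h; simpa using h
    | succ t ih =>
      intro n x h
      have h1 := V_half (ih h)
      rw [pow_succ, ← div_div]
      exact V_mono h1 (by push_cast; omega)
  rw [e]
  have h1 := half j (V_four_pow j (V_int z))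
  exact V_mono h1 (by omega)

theorem V_O4 (j : ℕ) : V 0 (O4 j) := by
  unfold O4
  refine V_sum _ _ fun b _ => ?_
  have h1 := V_mul (V_nat 4) (V_inv_odd (a := 4 * b + 3) (by omega))
  push_cast at h1
  rw [mul_one_div] at h1
  exact V_mono h1 (by norm_num)

theorem V_rho (n : ℕ) : V 0 (rho ℚ n) := by
  unfold rho
  induction n with
  | zero => simpa using V_int 1
  | succ n ih =>
    rw [Finset.prod_range_succ]
    have h1 := V_mul (V_nat (4 * (n + 1))) (V_inv_odd (a := 4 * (n + 1) + 1) (by omega))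
    push_cast at h1
    rw [mul_one_div] at h1
    have := V_mul ih h1
    exact V_mono this (by norm_num)

theorem odd_prod (n : ℕ) : (∏ b ∈ range n, (4 * b + 3)) % 2 = 1 := by
  induction n with
  | zero => simp
  | succ n ih =>
    rw [Finset.prod_range_succ, Nat.mul_mod, ih]
    omega

theorem pow_dvd_fact (m : ℕ) : 2 ^ (2 ^ m - 1) ∣ (2 ^ m).factorial := by
  induction m with
  | zero => simp
  | succ m ih =>
    have hp : 0 < 2 ^ m := by positivity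
    have e : (2 ^ (m + 1)).factorial = (2 ^ m + 2 ^ m).factorial := by
      congr 1; ring
    have h1 : 2 ^ (2 ^ m) * (2 ^ m).factorial ∣ (2 * 2 ^ m).factorial := by
      obtain ⟨n, hn⟩ : ∃ n, 2 * 2 ^ m = n + 1 := ⟨2 * 2 ^ m - 1, by omega⟩
      rw [hn, Nat.factorial_eq_mul_doubleFactorial, ← hn, Nat.doubleFactorial_two_mul]
      exact dvd_mul_right _ _
    have h2 : 2 ^ (2 ^ (m + 1) - 1) = 2 ^ (2 ^ m) * 2 ^ (2 ^ m - 1) := by
      rw [← pow_add]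
      congr 1
      have : 2 ^ (m + 1) = 2 * 2 ^ m := by ring
      omega
    have h3 : 2 ^ (m + 1) = 2 * 2 ^ m := by ring
    rw [h2, h3]
    exact (mul_dvd_mul_left _ ih).trans h1

theorem pow_dvd_fact3 (m : ℕ) : 2 ^ (3 * 2 ^ m - 2) ∣ (3 * 2 ^ m).factorial := by
  have hp : 0 < 2 ^ m := by positivity
  have h1 := pow_dvd_fact m
  have h2 := pow_dvd_fact (m + 1)
  have h3 : 2 ^ (m + 1) = 2 * 2 ^ m := by ring
  have h4 : (2 ^ (m + 1)).factorial * (2 ^ m).factorial ∣ (2 ^ (m + 1) + 2 ^ m).factorial :=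
    Nat.factorial_mul_factorial_dvd_factorial_add _ _
  have h5 : 2 ^ (m + 1) + 2 ^ m = 3 * 2 ^ m := by ring
  rw [h5] at h4
  have h6 : 2 ^ (3 * 2 ^ m - 2) = 2 ^ (2 ^ (m + 1) - 1) * 2 ^ (2 ^ m - 1) := by
    rw [← pow_add]
    congr 1
    omega
  rw [h6]
  exact (mul_dvd_mul h2 h1).trans h4

theorem V_TN4 {m j : ℕ} (hj : j < 3 * 2 ^ m) :
    V (((3 * 2 ^ m - j).factorization 2 : ℤ) - (m + 1) - 3 * j) (TN ℚ (2 ^ m) j) := by
  unfold TN
  rw [jb_closed]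
  set i := 3 * 2 ^ m - j with hi
  have h4 : 2 ^ (m + 1 + 1) = 4 * 2 ^ m := by ring
  have h4b : 2 ^ (m + 2) = 4 * 2 ^ m := by ring
  have h2 : 2 ^ (m + 1) = 2 * 2 ^ m := by ring
  have hp : 0 < 2 ^ m := by positivity
  have hi0 : i ≠ 0 := by omega
  have hv : i.factorization 2 ≤ m + 1 := by
    by_contra hc
    have h7 : 2 ^ (m + 2) ∣ i :=
      (pow_dvd_pow 2 (by omega : m + 2 ≤ i.factorization 2)).trans (Nat.ordProj_dvd i 2)
    have := Nat.le_of_dvd (by omega) h7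
    omega
  have hiv : V (i.factorization 2 : ℤ) (i : ℚ) := V_of_dvd (Nat.ordProj_dvd _ _)
  have a1 : V (-((m + 1 : ℕ) : ℤ)) (H ℚ j) := V_H (by omega)
  have a2 : V (-((m + 1 : ℕ) : ℤ)) (O4 j) := V_mono (V_O4 j) (by omega)
  have a3 : V (-((m + 1 : ℕ) : ℤ)) (H ℚ i) := V_H (by omega)
  have a4 : V (-((m + 1 : ℕ) : ℤ)) (H ℚ (2 ^ m + j)) := V_H (by omega)
  have a5 := V_mul (V_nat 2) (V_sub a3 a4)
  have a6 : V (-((m + 1 : ℕ) : ℤ)) (H ℚ j - O4 j - 2 * (H ℚ i - H ℚ (2 ^ m + j))) :=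
    V_sub (V_sub a1 a2) (V_mono (by push_cast at a5; exact a5) (by push_cast; omega))
  have a7 := V_mul hiv a6
  have a8 : V 0 (1 : ℚ) := by simpa using V_int 1
  have a9 : V ((i.factorization 2 : ℤ) - (m + 1)) ((i : ℚ) * (H ℚ j - O4 j - 2 * (H ℚ i - H ℚ (2 ^ m + j))) + 1) :=
    V_add (V_mono a7 (by push_cast; omega)) (V_mono a8 (by omega))
  have a10 := V_mul (V_ja j) a9
  have e : (i : ℚ) * (ja ℚ j * (H ℚ j - O4 j) - 2 * ja ℚ j * (H ℚ i - H ℚ (2 ^ m + j))) + ja ℚ j =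
      ja ℚ j * ((i : ℚ) * (H ℚ j - O4 j - 2 * (H ℚ i - H ℚ (2 ^ m + j))) + 1) := by ring
  rw [e]
  exact V_mono a10 (by omega)

end Val4

open Val4 in
theorem J_ne_zero (m : ℕ) (hm : 1 ≤ m) : J ℚ (2 ^ m) ≠ 0 := by
  intro hJ
  have hp : 0 < 2 ^ m := by positivity
  have h4 : 4 * 2 ^ m = 2 ^ (m + 2) := by ring
  unfold J at hJ
  rw [Finset.sum_range_succ] at hJ
  have hlast : ((4 * 2 ^ m).choose (2 ^ m + 3 * 2 ^ m) : ℚ) ^ 2 * TN ℚ (2 ^ m) (3 * 2 ^ m) =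
      ja ℚ (3 * 2 ^ m) := by
    have e1 : 2 ^ m + 3 * 2 ^ m = 4 * 2 ^ m := by ring
    rw [e1, Nat.choose_self]
    unfold TN
    rw [Nat.sub_self]
    norm_num
  rw [hlast] at hJ
  have hN : V (3 - 9 * (2 ^ m : ℕ) : ℤ) (∑ j ∈ range (3 * 2 ^ m),
      ((4 * 2 ^ m).choose (2 ^ m + j) : ℚ) ^ 2 * TN ℚ (2 ^ m) j) := by
    refine V_sum _ _ fun j hj => ?_
    have hj' := Finset.mem_range.1 hj
    have hT := V_TN4 hj'
    set i := 3 * 2 ^ m - j with hi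
    have hi0 : i ≠ 0 := by omega
    have him : i ≤ 2 ^ (m + 2) := by omega
    have hv : i.factorization 2 ≤ m + 1 := by
      by_contra hc
      have h7 : 2 ^ (m + 2) ∣ i :=
        (pow_dvd_pow 2 (by omega : m + 2 ≤ i.factorization 2)).trans (Nat.ordProj_dvd i 2)
      have := Nat.le_of_dvd (by omega) h7
      omega
    have hsym : (4 * 2 ^ m).choose (2 ^ m + j) = (2 ^ (m + 2)).choose i := by
      rw [h4]
      refine Nat.choose_symm_of_eq_add ?_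
      omega
    have c1 : V ((m + 2 - i.factorization 2 : ℕ) : ℤ)
        (((4 * 2 ^ m).choose (2 ^ m + j) : ℕ) : ℚ) := by
      rw [hsym]
      exact V_of_dvd (dvd_choose him hi0)
    have c2 := V_mul (V_pow c1 2) hT
    refine V_mono c2 ?_
    rw [Nat.cast_sub (by omega)]
    push_cast
    have : (j : ℤ) + 1 ≤ 3 * 2 ^ m := by exact_mod_cast hj'
    have : (i.factorization 2 : ℤ) ≤ m + 1 := by exact_mod_cast hv
    linarith
  have hP : V (3 - 9 * (2 ^ m : ℕ) : ℤ) (∑ i ∈ range (2 ^ m),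
      ((4 * 2 ^ m).choose (3 * 2 ^ m + i + 1) : ℚ) ^ 2 * TP ℚ (2 ^ m) i) := by
    refine V_sum _ _ fun i _ => ?_
    unfold TP
    have c2 := V_mul (V_pow (V_nat ((4 * 2 ^ m).choose (3 * 2 ^ m + i + 1))) 2)
      (V_mul (V_mul (V_nat 4) (V_rho i)) (V_nat (3 * 2 ^ m + i + 1)))
    refine V_mono c2 ?_
    have : (1 : ℤ) ≤ ((2 ^ m : ℕ) : ℤ) := by exact_mod_cast hp
    push_cast at this ⊢
    linarith
  have hr : ja ℚ (3 * 2 ^ m) = -((∑ j ∈ range (3 * 2 ^ m),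
      ((4 * 2 ^ m).choose (2 ^ m + j) : ℚ) ^ 2 * TN ℚ (2 ^ m) j) +
      ∑ i ∈ range (2 ^ m),
      ((4 * 2 ^ m).choose (3 * 2 ^ m + i + 1) : ℚ) ^ 2 * TP ℚ (2 ^ m) i) := by
    linarith
  have hV : V (3 - 9 * (2 ^ m : ℕ) : ℤ) (ja ℚ (3 * 2 ^ m)) := by
    rw [hr]
    exact V_neg (V_add hN hP)
  have hf : V ((3 * 2 ^ m - 2 : ℕ) : ℤ) (((3 * 2 ^ m).factorial : ℕ) : ℚ) :=
    V_of_dvd (pow_dvd_fact3 m)
  have h4' : V ((2 * (3 * 2 ^ m) : ℕ) : ℤ) (((4 ^ (3 * 2 ^ m) : ℕ)) : ℚ) :=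
    V_of_dvd (by rw [pow_mul]; norm_num)
  have hprod := V_mul hV (V_mul h4' hf)
  have e : ja ℚ (3 * 2 ^ m) * ((((4 ^ (3 * 2 ^ m) : ℕ)) : ℚ) * (((3 * 2 ^ m).factorial : ℕ) : ℚ)) =
      ((∏ b ∈ range (3 * 2 ^ m), (4 * b + 3) : ℕ) : ℚ) := by
    rw [ja_closed]
    push_cast
    rw [div_mul_cancel₀]
    positivity
  rw [e] at hprod
  have h1 : V ((1 : ℕ) : ℤ) ((∏ b ∈ range (3 * 2 ^ m), (4 * b + 3) : ℕ) : ℚ) := by
    refine V_mono hprod ?_
    rw [Nat.cast_sub (by omega)]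
    push_cast
    linarith
  have h2 := dvd_of_V (n := 1) h1
  have h3 := odd_prod (3 * 2 ^ m)
  omega

end Pool.Agent.H78.NQ
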