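import Pool.Agent.H78.NQ.Vanish4
import Pool.Agent.H78.NQ.Red4
import Pool.Agent.H78.NQ.Integ4
import Pool.Agent.H78.NQ.Spec
import Pool.Agent.H78.NQ.Size4
import Pool.Agent.H78.NQ.Val4

/-!
# NQ Mass4: the logarithmic mass of the Wieferich primes in the range `Good k`, `k = 2^m`

PROOF. As `H11/NW/Mass.lean`: the integer `z = 2^(9k) lcmUpto(4k) J k ≠ 0` is divisible by every Wieferich prime `p` with
`Good k p` (`J_zmod`, `J_red`, `red_int`) and by every special prime `l` (`J_spec`: `c z = 2^(9k) lcmUpto(4k) z'`, `l` divides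
`lcmUpto(4k)` and not `c`); these primes are distinct (`l ≤ 4k < p`).
-/

set_option autoImplicit false

namespace Pool.Agent.H78.NQ

open Finset
open Pool.Agent.H11.NW (H Wf)

theorem wieferich_mass4 (m : ℕ) (hm : 1 ≤ m) :
    ∑ p ∈ (range (32 * 2 ^ m)).filter (fun p => p.Prime ∧ Wf p ∧ Good (2 ^ m) p), Real.log p
      + ∑ l ∈ (range (4 * 2 ^ m + 1)).filter (fun l => l.Prime ∧ Special (2 ^ m) l), Real.log l ≤
      17 * 2 ^ m * Real.log 2 + Chebyshev.psi (4 * 2 ^ m : ℝ)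
        + Real.log (10 ^ 6) + 4 * Real.log (2 ^ m : ℝ) := by
  set K : ℕ := 2 ^ m with hK
  have hK2 : 2 ≤ K := by
    rw [hK]
    calc 2 = 2 ^ 1 := by norm_num
      _ ≤ 2 ^ m := Nat.pow_le_pow_right (by norm_num) hm
  obtain ⟨z, hz⟩ := J_int K
  have hJ : J ℚ K ≠ 0 := J_ne_zero m hm
  have hL : 0 < Nat.lcmUpto (4 * K) := Nat.lcmUpto_pos _
  have hLq : (0 : ℚ) < (Nat.lcmUpto (4 * K) : ℚ) := by exact_mod_cast hL
  have hz0 : z ≠ 0 := by
    intro h0
    rw [h0] at hz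
    have : (2 ^ (9 * K) * (Nat.lcmUpto (4 * K) : ℚ)) ≠ 0 := by positivity
    apply hJ
    have h1 : 2 ^ (9 * K) * (Nat.lcmUpto (4 * K) : ℚ) * J ℚ K = 0 := by
      rw [← hz]; simp
    rcases mul_eq_zero.1 h1 with h2 | h2
    · exact absurd h2 this
    · exact h2
  set S := (range (32 * K)).filter (fun p => p.Prime ∧ Wf p ∧ Good K p) with hS
  set T := (range (4 * K + 1)).filter (fun l => l.Prime ∧ Special K l) with hT
  have hdisj : Disjoint S T := by
    rw [Finset.disjoint_left]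
    intro p hp hp'
    rw [hS, mem_filter] at hp
    rw [hT, mem_filter, mem_range] at hp'
    have h1 : 4 * K < p := hp.2.2.2.1
    omega
  have hprime : ∀ p ∈ S ∪ T, p.Prime := by
    intro p hp
    rcases mem_union.1 hp with h | h
    · exact (mem_filter.1 h).2.1
    · exact (mem_filter.1 h).2.1
  have hdvd : ∀ p ∈ S ∪ T, p ∣ z.natAbs := by
    intro p hp
    rcases mem_union.1 hp with hp | hp
    · rw [hS, mem_filter] at hp
      obtain ⟨-, hpp, hw, hg⟩ := hp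
      have : Fact p.Prime := ⟨hpp⟩
      have h0 : 4 * K < p := hg.1
      have h3 : J (ZMod p) K = 0 := J_zmod p (by omega) hw K hg
      have h4 := J_red p (by omega) K (by omega)
      rw [h3] at h4
      have h5 : (p : ℤ) ∣ z :=
        Pool.Agent.H11.NW.red_int p _ h4 z (2 ^ (9 * K) * (Nat.lcmUpto (4 * K) : ℤ)) (by
          rw [hz]; push_cast; ring)
      exact Int.natCast_dvd.1 h5
    · rw [hT, mem_filter, mem_range] at hp
      obtain ⟨h1, hpp, hs⟩ := hp
      obtain ⟨c, z', hc, hz'⟩ := J_spec K hK2 p hpp hs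
      have hpL : p ∣ Nat.lcmUpto (4 * K) := by
        unfold Nat.lcmUpto
        exact Finset.dvd_lcm (f := id) (mem_Icc.2 ⟨hpp.one_lt.le, by omega⟩)
      have e : c * z = 2 ^ (9 * K) * (Nat.lcmUpto (4 * K) : ℤ) * z' := by
        have : (c : ℚ) * z = 2 ^ (9 * K) * (Nat.lcmUpto (4 * K) : ℚ) * z' := by
          rw [hz, hz']; ring
        exact_mod_cast this
      have h2 : (p : ℤ) ∣ c * z := by
        rw [e]
        exact Dvd.dvd.mul_right (Dvd.dvd.mul_left (by exact_mod_cast hpL) _) _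
      have hpr : Prime (p : ℤ) := Nat.prime_iff_prime_int.1 hpp
      rcases hpr.dvd_or_dvd h2 with h3 | h3
      · exact absurd h3 hc
      · exact Int.natCast_dvd.1 h3
  have hprod : ∏ p ∈ S ∪ T, p ∣ z.natAbs :=
    Finset.prod_primes_dvd _ (fun p hp => (hprime p hp).prime) hdvd
  have hle : ∏ p ∈ S ∪ T, p ≤ z.natAbs :=
    Nat.le_of_dvd (Int.natAbs_pos.2 hz0) hprod
  have hlog : ∑ p ∈ S, Real.log p + ∑ p ∈ T, Real.log p =
      Real.log ((∏ p ∈ S ∪ T, p : ℕ) : ℝ) := by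
    rw [← Finset.sum_union hdisj, Nat.cast_prod, Real.log_prod]
    intro p hp
    have := (hprime p hp).pos
    positivity
  have hpos : 0 < ∏ p ∈ S ∪ T, p := Finset.prod_pos fun p hp => (hprime p hp).pos
  have hzle : (z.natAbs : ℝ) ≤ 10 ^ 6 * (K : ℝ) ^ 4 * 2 ^ (17 * K) *
      (Nat.lcmUpto (4 * K) : ℝ) := by
    have h1 : (z.natAbs : ℚ) ≤ 10 ^ 6 * (K : ℚ) ^ 4 * 2 ^ (17 * K) *
        (Nat.lcmUpto (4 * K) : ℚ) := by
      have e1 : (z.natAbs : ℚ) = |(z : ℚ)| := by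
        rw [Nat.cast_natAbs, Int.cast_abs]
      rw [e1, hz, abs_mul, abs_of_pos (by positivity :
        (0 : ℚ) < 2 ^ (9 * K) * (Nat.lcmUpto (4 * K) : ℚ))]
      have h2 := J_size K (by omega)
      calc 2 ^ (9 * K) * (Nat.lcmUpto (4 * K) : ℚ) * |J ℚ K|
          ≤ 2 ^ (9 * K) * (Nat.lcmUpto (4 * K) : ℚ) *
            (10 ^ 6 * (K : ℚ) ^ 4 * 2 ^ (8 * K)) := by gcongr
        _ = 10 ^ 6 * (K : ℚ) ^ 4 * 2 ^ (17 * K) * (Nat.lcmUpto (4 * K) : ℚ) := by
          have e : (2 : ℚ) ^ (17 * K) = 2 ^ (9 * K) * 2 ^ (8 * K) := by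
            rw [← pow_add]; congr 1; ring
          rw [e]; ring
    exact_mod_cast h1
  have hKr : (0 : ℝ) < (K : ℝ) := by
    have : 0 < K := by omega
    exact_mod_cast this
  have hLr : (0 : ℝ) < (Nat.lcmUpto (4 * K) : ℝ) := by exact_mod_cast hL
  have hpsi : Chebyshev.psi (4 * 2 ^ m : ℝ) = Real.log (Nat.lcmUpto (4 * K)) := by
    rw [← Chebyshev.psi_eq_log_lcmUpto]
    congr 1
    rw [hK]; push_cast; ring
  have hfin : Real.log ((∏ p ∈ S ∪ T, p : ℕ) : ℝ) ≤ Real.log (10 ^ 6 * (K : ℝ) ^ 4 * 2 ^ (17 * K) *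
      (Nat.lcmUpto (4 * K) : ℝ)) := by
    apply Real.log_le_log (by exact_mod_cast hpos)
    exact le_trans (by exact_mod_cast hle) hzle
  have hexp : Real.log (10 ^ 6 * (K : ℝ) ^ 4 * 2 ^ (17 * K) * (Nat.lcmUpto (4 * K) : ℝ)) =
      17 * K * Real.log 2 + Real.log (Nat.lcmUpto (4 * K))
        + Real.log (10 ^ 6) + 4 * Real.log K := by
    rw [Real.log_mul (by positivity) (by positivity), Real.log_mul (by positivity) (by positivity),
      Real.log_mul (by positivity) (by positivity), Real.log_pow (n := 4), Real.log_pow (n := 17 * K)]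
    push_cast
    ring
  have hKc : ((2 : ℝ) ^ m) = (K : ℝ) := by rw [hK]; push_cast; ring
  rw [hlog, hpsi, hKc]
  rw [hexp] at hfin
  exact hfin

end Pool.Agent.H78.NQ
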