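import Pool.Agent.H78.NQ.Defs
import Pool.Agent.H11.NW.Node

/-!
# NQ Node4: the nodes `-3 k, …, k`

Compare `H11/NW/Node.lean` (nodes `-K, …, K`).
-/

set_option autoImplicit false

namespace Pool.Agent.H78.NQ

open Finset
open Pool.Agent.H11.NW (H Wf prod_erase_split sum_erase_split)

/-- the node set `{-3k, ..., k}` in `F` -/
def nodes (F : Type) [Field F] [DecidableEq F] (k : ℕ) : Finset F :=
  (range (4 * k + 1)).image fun t : ℕ => (t : F) - 3 * k

theorem nodes_inj {F : Type} [Field F] (k : ℕ)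
    (hk : ∀ n : ℕ, 0 < n → n ≤ 4 * k → (n : F) ≠ 0) :
    Set.InjOn (fun t : ℕ => (t : F) - 3 * k) (range (4 * k + 1) : Finset ℕ) := by
  intro a ha b hb hab
  simp only [coe_range, Set.mem_Iio] at ha hb
  have h1 : (a : F) = b := by simpa using hab
  rcases lt_trichotomy a b with h | h | h
  · exfalso
    apply hk (b - a) (by omega) (by omega)
    rw [Nat.cast_sub h.le, h1, sub_self]
  · exact h
  · exfalso
    apply hk (a - b) (by omega) (by omega)
    rw [Nat.cast_sub h.le, h1, sub_self]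

theorem card_nodes {F : Type} [Field F] [DecidableEq F] (k : ℕ)
    (hk : ∀ n : ℕ, 0 < n → n ≤ 4 * k → (n : F) ≠ 0) : (nodes F k).card = 4 * k + 1 := by
  rw [nodes, card_image_of_injOn (nodes_inj k hk), card_range]

theorem sum_nodes {F : Type} [Field F] [DecidableEq F] (k : ℕ)
    (hk : ∀ n : ℕ, 0 < n → n ≤ 4 * k → (n : F) ≠ 0) (g : F → F) :
    ∑ a ∈ nodes F k, g a =
      ∑ j ∈ range (3 * k + 1), g (-(j : F)) + ∑ i ∈ range k, g ((i : F) + 1) := by
  rw [nodes, sum_image (nodes_inj k hk), show 4 * k + 1 = (3 * k + 1) + k by ring,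
    sum_range_add, ← Finset.sum_range_reflect]
  congr 1
  · refine sum_congr rfl fun j hj => ?_
    rw [mem_range] at hj
    congr 1
    rw [show 3 * k + 1 - 1 - j = 3 * k - j by omega, Nat.cast_sub (by omega)]
    push_cast
    ring
  · refine sum_congr rfl fun i _ => ?_
    congr 1
    push_cast
    ring

theorem erase_nodes {F : Type} [Field F] [DecidableEq F] (k : ℕ)
    (hk : ∀ n : ℕ, 0 < n → n ≤ 4 * k → (n : F) ≠ 0) (t0 : ℕ) (h0 : t0 ≤ 4 * k) :
    (nodes F k).erase ((t0 : F) - 3 * k) =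
      ((range (4 * k + 1)).erase t0).image fun t : ℕ => (t : F) - 3 * k := by
  ext x
  simp only [nodes, mem_erase, mem_image, mem_range, ne_eq]
  constructor
  · rintro ⟨h1, t, h2, rfl⟩
    exact ⟨t, ⟨fun h => h1 (by rw [h]), h2⟩, rfl⟩
  · rintro ⟨t, ⟨h1, h2⟩, rfl⟩
    refine ⟨fun h => h1 ?_, t, h2, rfl⟩
    exact nodes_inj k hk (by simpa using h2) (by simp; omega) h

theorem node_gen {F : Type} [Field F] [DecidableEq F] (k : ℕ)
    (hk : ∀ n : ℕ, 0 < n → n ≤ 4 * k → (n : F) ≠ 0) (t0 : ℕ) (h0 : t0 ≤ 4 * k) :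
    ∏ b ∈ (nodes F k).erase ((t0 : F) - 3 * k), ((t0 : F) - 3 * k - b) =
      (-1) ^ (4 * k - t0) * (t0.factorial * (4 * k - t0).factorial : F) ∧
    ∑ b ∈ (nodes F k).erase ((t0 : F) - 3 * k), ((t0 : F) - 3 * k - b)⁻¹ =
      H F t0 - H F (4 * k - t0) := by
  have hinj : Set.InjOn (fun t : ℕ => (t : F) - 3 * k)
      (((range (4 * k + 1)).erase t0 : Finset ℕ) : Set ℕ) :=
    (nodes_inj k hk).mono (by
      intro x hx
      exact mem_of_mem_erase hx)
  rw [erase_nodes k hk t0 h0]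
  have c1 : ∀ i ∈ range t0,
      ((t0 : F) - 3 * k - (((t0 - 1 - i : ℕ) : F) - 3 * k)) = (i : F) + 1 := by
    intro i hi
    rw [mem_range] at hi
    rw [show t0 - 1 - i = t0 - (i + 1) by omega, Nat.cast_sub (by omega)]
    push_cast
    ring
  have c2 : ∀ i ∈ range (4 * k - t0),
      ((t0 : F) - 3 * k - (((t0 + 1 + i : ℕ) : F) - 3 * k)) = -((i : F) + 1) := by
    intro i _
    push_cast
    ring
  have fac : ∀ n : ℕ, ∏ i ∈ range n, ((i : F) + 1) = (n.factorial : F) := by
    intro n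
    induction n with
    | zero => simp
    | succ n ih => rw [prod_range_succ, ih, Nat.factorial_succ]; push_cast; ring
  refine ⟨?_, ?_⟩
  · rw [prod_image hinj, prod_erase_split _ _ _ h0, prod_congr rfl c1, prod_congr rfl c2, fac]
    rw [show (∏ i ∈ range (4 * k - t0), -((i : F) + 1)) =
      ∏ i ∈ range (4 * k - t0), ((-1) * ((i : F) + 1)) from
        prod_congr rfl fun i _ => by ring]
    rw [prod_mul_distrib, fac, prod_const, card_range]
    ring
  · rw [sum_image hinj, sum_erase_split _ _ _ h0,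
      sum_congr rfl (fun i hi => by rw [c1 i hi]),
      sum_congr (s₁ := range (4 * k - t0)) rfl (fun i hi => by rw [c2 i hi])]
    unfold H
    simp only [inv_neg, one_div, sum_neg_distrib]
    ring

theorem node_neg {F : Type} [Field F] [DecidableEq F] (k : ℕ)
    (hk : ∀ n : ℕ, 0 < n → n ≤ 4 * k → (n : F) ≠ 0) (j : ℕ) (hj : j ≤ 3 * k) :
    ∏ b ∈ (nodes F k).erase (-(j : F)), (-(j : F) - b) =
      (-1) ^ (k + j) * ((3 * k - j).factorial * (k + j).factorial : F) ∧
    ∑ b ∈ (nodes F k).erase (-(j : F)), (-(j : F) - b)⁻¹ = H F (3 * k - j) - H F (k + j) := by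
  have h := node_gen (F := F) k hk (3 * k - j) (by omega)
  have e : (((3 * k - j : ℕ) : F) - 3 * k) = -(j : F) := by
    rw [Nat.cast_sub hj]; push_cast; ring
  rw [e, show 4 * k - (3 * k - j) = k + j by omega] at h
  exact h

theorem node_pos {F : Type} [Field F] [DecidableEq F] (k : ℕ)
    (hk : ∀ n : ℕ, 0 < n → n ≤ 4 * k → (n : F) ≠ 0) (i : ℕ) (hi : i < k) :
    ∏ b ∈ (nodes F k).erase ((i : F) + 1), ((i : F) + 1 - b) =
      (-1) ^ (k - (i + 1)) * ((3 * k + i + 1).factorial * (k - (i + 1)).factorial : F) := by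
  have h := (node_gen (F := F) k hk (3 * k + i + 1) (by omega)).1
  have e : (((3 * k + i + 1 : ℕ) : F) - 3 * k) = (i : F) + 1 := by
    push_cast; ring
  rw [e, show 4 * k - (3 * k + i + 1) = k - (i + 1) by omega] at h
  exact h

end Pool.Agent.H78.NQ
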