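import Pool.Agent.H11.NW.Herm

/-!
# NQ Res2: residue lemma for double poles
-/

set_option autoImplicit false

namespace Pool.Agent.H78.NQ

open Finset Polynomial
open Pool.Agent.H11.NW (HJet coeff_one_mul' taylor_prod')

section

variable {F : Type*} [Field F] [DecidableEq F]

theorem hjet_node2 (s : Finset F) (a : F) :
    (taylor a (∏ b ∈ s.erase a, (X - C b) ^ 2)).coeff 0 = ∏ b ∈ s.erase a, (a - b) ^ 2 ∧
    (taylor a (∏ b ∈ s.erase a, (X - C b) ^ 2)).coeff 1 =
      (∏ b ∈ s.erase a, (a - b) ^ 2) * (2 * ∑ b ∈ s.erase a, (a - b)⁻¹) := by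
  have h1 : taylor a (∏ b ∈ s.erase a, (X - C b) ^ 2) = ∏ b ∈ s.erase a, (X + C (a - b)) ^ 2 := by
    rw [taylor_prod']
    refine Finset.prod_congr rfl fun b _ => ?_
    rw [taylor_pow, map_sub, taylor_X, taylor_C, C_sub]
    ring
  rw [h1]
  have h2 := HJet.prod (s.erase a) (fun b => (X + C (a - b) : F[X]) ^ 2) (fun b => (a - b) ^ 2)
    (fun b => 2 * (a - b)⁻¹) (fun b => 2 * (-((a - b)⁻¹ ^ 2))) (fun b hb => by
      have hne : a - b ≠ 0 := sub_ne_zero.mpr (Finset.ne_of_mem_erase hb).symm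
      have h := (HJet.linear (a - b) hne).mul (HJet.linear (a - b) hne)
      have e : (X + C (a - b)) * (X + C (a - b)) = (X + C (a - b) : F[X]) ^ 2 := by ring
      rw [e] at h
      convert h using 1 <;> ring)
  obtain ⟨k0, k1, -⟩ := h2
  refine ⟨k0, ?_⟩
  rw [k1]
  congr 1
  rw [Finset.mul_sum]

omit [DecidableEq F] in
theorem dvd_iff_taylor2 (a : F) (q : F[X]) : (X - C a) ^ 2 ∣ q ↔ X ^ 2 ∣ taylor a q := by
  have h := map_dvd_iff (taylorEquiv a) (a := (X - C a : F[X]) ^ 2) (b := q)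
  rw [← h]
  have e : taylorEquiv a ((X - C a : F[X]) ^ 2) = X ^ 2 := by
    change taylor a ((X - C a : F[X]) ^ 2) = X ^ 2
    rw [taylor_pow, map_sub, taylor_X, taylor_C, add_sub_cancel_right]
  rw [e]
  exact Iff.rfl

end

theorem residue_two {F : Type} [Field F] [DecidableEq F] (s : Finset F)
    (h : F[X]) (hd : h.natDegree + 2 ≤ 2 * s.card) :
    ∑ a ∈ s, (∏ b ∈ s.erase a, (a - b))⁻¹ ^ 2 *
      ((taylor a h).coeff 1 + (-2 * ∑ b ∈ s.erase a, (a - b)⁻¹) * (taylor a h).coeff 0) = 0 := by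
  classical
  set w : F → F := fun a => (∏ b ∈ s.erase a, (a - b))⁻¹ ^ 2 with hw
  set S1 : F → F := fun a => ∑ b ∈ s.erase a, (a - b)⁻¹ with hS1
  set P : F → F[X] := fun a => ∏ b ∈ s.erase a, (X - C b) ^ 2 with hP
  set c0 : F → F := fun a => w a * (taylor a h).coeff 0 with hc0
  set c1 : F → F := fun a => w a * ((taylor a h).coeff 1
    + (-2 * S1 a) * (taylor a h).coeff 0) with hc1
  set G : F → F[X] := fun a => C (c1 a) * (X - C a) + C (c0 a) with hG
  set D : F[X] := h - ∑ a ∈ s, G a * P a with hD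
  have hwW : ∀ a, w a * ∏ b ∈ s.erase a, (a - b) ^ 2 = 1 := by
    intro a
    have hne : (∏ b ∈ s.erase a, (a - b)) ≠ 0 := Finset.prod_ne_zero_iff.mpr fun b hb =>
      sub_ne_zero.mpr (Finset.ne_of_mem_erase hb).symm
    simp only [hw]
    rw [Finset.prod_pow, ← mul_pow, inv_mul_cancel₀ hne, one_pow]
  -- local divisibility
  have hloc : ∀ a ∈ s, (X - C a) ^ 2 ∣ h - G a * P a := by
    intro a ha
    rw [dvd_iff_taylor2, map_sub, taylor_mul]
    have hGt : taylor a (G a) = C (c1 a) * X + C (c0 a) := by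
      simp only [hG, map_add, taylor_mul, map_sub, taylor_X, taylor_C,
        add_sub_cancel_right]
    obtain ⟨k0, k1⟩ := hjet_node2 s a
    have hPt : taylor a (P a) = taylor a (∏ b ∈ s.erase a, (X - C b) ^ 2) := rfl
    rw [hGt, hPt]
    set Q := taylor a (∏ b ∈ s.erase a, (X - C b) ^ 2) with hQ
    set W := ∏ b ∈ s.erase a, (a - b) ^ 2 with hW
    have hwW' : w a * W = 1 := hwW a
    have hG0 : (C (c1 a) * X + C (c0 a) : F[X]).coeff 0 = c0 a := by simp
    have hG1 : (C (c1 a) * X + C (c0 a) : F[X]).coeff 1 = c1 a := by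
      rw [coeff_add, coeff_C_mul, coeff_X, coeff_C]
      simp
    rw [X_pow_dvd_iff]
    intro d hd3
    rw [coeff_sub]
    interval_cases d
    · rw [mul_coeff_zero, hG0, k0]
      simp only [hc0]
      linear_combination (-(taylor a h).coeff 0) * hwW'
    · rw [coeff_one_mul', hG0, hG1, k0, k1]
      simp only [hc0, hc1, hS1]
      linear_combination (-(taylor a h).coeff 1) * hwW'
  have hdvd : ∀ a ∈ s, (X - C a) ^ 2 ∣ D := by
    intro a ha
    have e : D = (h - G a * P a) - ∑ b ∈ s.erase a, G b * P b := by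
      rw [hD, ← Finset.add_sum_erase s _ ha]; ring
    rw [e]
    refine dvd_sub (hloc a ha) (Finset.dvd_sum fun b hb => ?_)
    refine Dvd.dvd.mul_left ?_ _
    exact Finset.dvd_prod_of_mem (fun c => (X - C c : F[X]) ^ 2)
      (Finset.mem_erase.mpr ⟨(Finset.ne_of_mem_erase hb).symm, ha⟩)
  have hprod : ∏ a ∈ s, (X - C a : F[X]) ^ 2 ∣ D := by
    refine Finset.prod_dvd_of_coprime (fun a _ b _ hab => ?_) hdvd
    exact (pairwise_coprime_X_sub_C (Function.injective_id (α := F)) hab).pow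
  have hcard : 1 ≤ s.card := by omega
  have hPdeg : ∀ a ∈ s, (P a).natDegree ≤ 2 * (s.card - 1) := by
    intro a ha
    simp only [hP]
    refine (natDegree_prod_le _ _).trans ?_
    refine (Finset.sum_le_card_nsmul _ _ 2 fun b _ => ?_).trans ?_
    · refine (natDegree_pow_le).trans ?_
      rw [natDegree_X_sub_C]
    · rw [Finset.card_erase_of_mem ha, smul_eq_mul, mul_comm]
  have hGdeg : ∀ a, (G a).natDegree ≤ 1 := by
    intro a
    simp only [hG]
    compute_degree
  have hDdeg : D.natDegree < (∏ a ∈ s, (X - C a : F[X]) ^ 2).natDegree := by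
    have e : (∏ a ∈ s, (X - C a : F[X]) ^ 2).natDegree = 2 * s.card := by
      rw [natDegree_prod_of_monic _ _ fun a _ => (monic_X_sub_C a).pow 2]
      simp [natDegree_pow, mul_comm]
    rw [e]
    have h1 : D.natDegree ≤ 2 * s.card - 1 := by
      rw [hD]
      refine (natDegree_sub_le _ _).trans (max_le (by omega) ?_)
      refine natDegree_sum_le_of_forall_le _ _ fun a ha => ?_
      refine natDegree_mul_le.trans ?_
      have := hPdeg a ha
      have := hGdeg a
      omega
    omega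
  have hD0 : D = 0 := eq_zero_of_dvd_of_natDegree_lt hprod hDdeg
  have hcoef := congrArg (fun q => q.coeff (1 + 2 * (s.card - 1))) hD0
  simp only [hD, coeff_sub, finsetSum_coeff, coeff_zero] at hcoef
  rw [coeff_eq_zero_of_natDegree_lt (by omega : h.natDegree < 1 + 2 * (s.card - 1)), zero_sub,
    neg_eq_zero] at hcoef
  rw [← hcoef]
  refine Finset.sum_congr rfl fun a ha => ?_
  rw [coeff_mul_add_eq_of_natDegree_le (hGdeg a) (hPdeg a ha)]
  have hP1 : (P a).coeff (2 * (s.card - 1)) = 1 := by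
    have hm : (P a).Monic := monic_prod_of_monic _ _ fun b _ => (monic_X_sub_C b).pow 2
    have hdeg : (P a).natDegree = 2 * (s.card - 1) := by
      simp only [hP]
      rw [natDegree_prod_of_monic _ _ fun b _ => (monic_X_sub_C b).pow 2]
      simp [natDegree_pow, Finset.card_erase_of_mem ha, mul_comm]
    rw [← hdeg]; exact hm
  have hG1 : (G a).coeff 1 = c1 a := by
    have e : G a = C (c1 a) * X + C (c0 a - c1 a * a) := by
      simp only [hG, C_sub, C_mul]
      ring
    rw [e, coeff_add, coeff_C_mul, coeff_X, coeff_C]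
    simp
  rw [hP1, hG1, mul_one]

end Pool.Agent.H78.NQ
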