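import Pool.Agent.H78.NQ.Defs

/-!
# NQ Uw: closed forms and integrality of `ja`, `jb`, `rho` over `ℚ`

PROOF. `u_n = ja ℚ n = ∏_{b<n} (4 b + 3) / (4^n n!)`, `w_n = ∏_{b<n} (4 b + 1) / (4^n n!)`.
(1) `n! ∣ 2^n ∏_{b<n} (4 b + 3)` and the same for `4 b + 1`: for the odd part `m` of `n!` choose an integer `t`
with `4 t = 3` modulo `m`; `n!` divides `t (t+1) ⋯ (t+n-1)` and `4^n` times this is `∏ (4 b + 3)` modulo `m`;
`v_2(n!) ≤ n`. Hence `8^n u_n` and `8^n w_n` are integers.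
(2) `∑_{b ≤ j} w_b u_(j-b) = 1`: with `S_j` the sum, `(j+1) S_(j+1) = (j+1) S_j` (write `j+1 = b + (j+1-b)` and use
`(n+1) u_(n+1) = (n+3/4) u_n`, `(n+1) w_(n+1) = (n+1/4) w_n`).
(3) `jb ℚ j = - ∑_{1 ≤ b ≤ j} w_b u_(j-b) / b`: both sides satisfy
`(j+1) y_(j+1) = (j+3/4) y_j - u_j + u_(j+1)` (same trick and (2)).
(4) `jb ℚ j = ja ℚ j (H_j - ∑_{b<j} 4/(4b+3))` by induction.
(5) `rho ℚ i = ∑_{j ≤ i} (-1)^j binom(i,j)/(4j+1)`: both sides satisfy `(4i+5) S_(i+1) = (4i+4) S_i`, because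
`(4i+4) binom(i,j) = (4i+5-(4j+1)) binom(i+1,j)` and `∑ (-1)^j binom(i+1,j) = 0`.
-/

set_option autoImplicit false

namespace Pool.Agent.H78.NQ

open Finset
open Pool.Agent.H11.NW (H Wf)

/-- `∑_{b<j} 4/(4b+3)` -/
def O4 (j : ℕ) : ℚ := ∑ b ∈ range j, 4 / (4 * (b : ℚ) + 3)

/-- `∏_{b<j} (b + 1/4) / (b + 1)` -/
def jw (j : ℕ) : ℚ := ∏ b ∈ range j, ((b : ℚ) + 1 / 4) / ((b : ℚ) + 1)

theorem ja_closed (j : ℕ) :
    ja ℚ j = (∏ b ∈ range j, (4 * (b : ℚ) + 3)) / (4 ^ j * (j.factorial : ℚ)) := by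
  induction j with
  | zero => simp
  | succ j ih =>
    rw [ja_succ, ih, prod_range_succ, Nat.factorial_succ, Nat.cast_mul, Nat.cast_succ, pow_succ]
    have h1 : ((j : ℚ) + 1) ≠ 0 := by positivity
    have h2 : ((j.factorial : ℕ) : ℚ) ≠ 0 := by positivity
    field_simp

theorem jw_closed (j : ℕ) :
    jw j = (∏ b ∈ range j, (4 * (b : ℚ) + 1)) / (4 ^ j * (j.factorial : ℚ)) := by
  induction j with
  | zero => simp [jw]
  | succ j ih =>
    have e : jw (j + 1) = jw j * (((j : ℚ) + 1 / 4) / ((j : ℚ) + 1)) := by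
      simp only [jw]; rw [prod_range_succ]
    rw [e, ih, prod_range_succ, Nat.factorial_succ, Nat.cast_mul, Nat.cast_succ, pow_succ]
    have h1 : ((j : ℚ) + 1) ≠ 0 := by positivity
    have h2 : ((j.factorial : ℕ) : ℚ) ≠ 0 := by positivity
    field_simp

theorem jb_closed (j : ℕ) : jb ℚ j = ja ℚ j * (H ℚ j - O4 j) := by
  induction j with
  | zero => simp [O4, H]
  | succ j ih =>
    have hH : H ℚ (j + 1) = H ℚ j + 1 / ((j : ℚ) + 1) := by
      simp only [H]; rw [sum_range_succ]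
    have hO : O4 (j + 1) = O4 j + 4 / (4 * (j : ℚ) + 3) := by
      simp only [O4]; rw [sum_range_succ]
    rw [jb_succ, ja_succ, ih, hH, hO]
    have h1 : ((j : ℚ) + 1) ≠ 0 := by positivity
    have h3 : (4 * (j : ℚ) + 3) ≠ 0 := by positivity
    field_simp
    ring

/-- `n!` divides `2^n c (c+4) ⋯ (c+4(n-1))` for odd `c` -/
theorem fact_dvd_two (c n : ℕ) :
    n.factorial ∣ 2 ^ n * ∏ b ∈ range n, (4 * b + c) := by
  obtain ⟨k, m, hm, hk⟩ := Nat.exists_eq_two_pow_mul_odd (Nat.factorial_ne_zero n)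
  have hkn : k ≤ n := by
    have h1 : k ≤ padicValNat 2 n.factorial := by
      have : 2 ^ k ∣ n.factorial := ⟨m, hk⟩
      exact (padicValNat_dvd_iff_le (Nat.factorial_ne_zero n)).1 this
    have h2 := sub_one_mul_padicValNat_factorial (p := 2) n
    have h3 : padicValNat 2 n.factorial = n - (Nat.digits 2 n).sum := by simpa using h2
    omega
  have hmd : m ∣ ∏ b ∈ range n, (4 * b + c) := by
    have hcop : Nat.Coprime 4 m := by
      have : Nat.Coprime 2 m := (Nat.coprime_two_left).2 hm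
      exact (Nat.Coprime.pow_left 2 this)
    obtain ⟨t, -, ht⟩ := Nat.exists_mul_mod_eq_of_coprime c hcop hm.pos.ne'
    have htc : (4 * t) ≡ c [MOD m] := ht
    have h1 : m ∣ t.ascFactorial n := by
      have : m ∣ n.factorial := ⟨2 ^ k, by rw [hk]; ring⟩
      exact this.trans (Nat.factorial_dvd_ascFactorial t n)
    have h2 : ∀ q : ℕ, (∏ b ∈ range q, (4 * b + c)) ≡ 4 ^ q * t.ascFactorial q [MOD m] := by
      intro q
      induction q with
      | zero => simp [Nat.ModEq]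
      | succ q ih =>
        rw [prod_range_succ, Nat.ascFactorial_succ, pow_succ]
        have e : 4 ^ q * 4 * ((t + q) * t.ascFactorial q) = (4 ^ q * t.ascFactorial q) * (4 * q + 4 * t) := by
          ring
        rw [e]
        exact ih.mul (Nat.ModEq.add_left _ htc.symm)
    have h3 := h2 n
    exact (h3.dvd_iff dvd_rfl).2 (h1.mul_left _)
  rw [hk]
  exact mul_dvd_mul (pow_dvd_pow 2 hkn) hmd

theorem ja_int (j : ℕ) : ∃ z : ℤ, (z : ℚ) = 8 ^ j * ja ℚ j := by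
  obtain ⟨z, hz⟩ := fact_dvd_two 3 j
  refine ⟨z, ?_⟩
  have hz' : (2 : ℚ) ^ j * ∏ b ∈ range j, (4 * (b : ℚ) + 3) = (j.factorial : ℚ) * z := by
    exact_mod_cast hz
  have h2 : ((j.factorial : ℕ) : ℚ) ≠ 0 := by positivity
  rw [ja_closed, show (8 : ℚ) ^ j = 2 ^ j * 4 ^ j by rw [← mul_pow]; norm_num]
  rw [Int.cast_natCast]
  have h4 : (4 : ℚ) ^ j ≠ 0 := by positivity
  field_simp
  rw [mul_comm]
  linarith [hz']

theorem jw_int (j : ℕ) : ∃ z : ℤ, (z : ℚ) = 8 ^ j * jw j := by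
  obtain ⟨z, hz⟩ := fact_dvd_two 1 j
  refine ⟨z, ?_⟩
  have hz' : (2 : ℚ) ^ j * ∏ b ∈ range j, (4 * (b : ℚ) + 1) = (j.factorial : ℚ) * z := by
    exact_mod_cast hz
  have h2 : ((j.factorial : ℕ) : ℚ) ≠ 0 := by positivity
  rw [jw_closed, show (8 : ℚ) ^ j = 2 ^ j * 4 ^ j by rw [← mul_pow]; norm_num]
  rw [Int.cast_natCast]
  have h4 : (4 : ℚ) ^ j ≠ 0 := by positivity
  field_simp
  rw [mul_comm]
  linarith [hz']

theorem jw_rec (j : ℕ) : ((j : ℚ) + 1) * jw (j + 1) = ((j : ℚ) + 1 / 4) * jw j := by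
  have e : jw (j + 1) = jw j * (((j : ℚ) + 1 / 4) / ((j : ℚ) + 1)) := by
    simp only [jw]; rw [prod_range_succ]
  have h1 : ((j : ℚ) + 1) ≠ 0 := by positivity
  rw [e]; field_simp

theorem ja_rec (j : ℕ) : ((j : ℚ) + 1) * ja ℚ (j + 1) = ((j : ℚ) + 3 / 4) * ja ℚ j := by
  have h1 : ((j : ℚ) + 1) ≠ 0 := by positivity
  rw [ja_succ]; field_simp

theorem jb_rec (j : ℕ) : ((j : ℚ) + 1) * jb ℚ (j + 1)
    = ((j : ℚ) + 3 / 4) * jb ℚ j - ja ℚ j + ja ℚ (j + 1) := by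
  have h1 : ((j : ℚ) + 1) ≠ 0 := by positivity
  rw [jb_succ, ja_succ]; field_simp

theorem conv_one (j : ℕ) : ∑ p ∈ antidiagonal j, jw p.1 * ja ℚ p.2 = 1 := by
  induction j with
  | zero => simp [jw]
  | succ j ih =>
    have h1 : ((j : ℚ) + 1) ≠ 0 := by positivity
    have e1 : ((j : ℚ) + 1) * ∑ p ∈ antidiagonal (j + 1), jw p.1 * ja ℚ p.2
        = (∑ p ∈ antidiagonal (j + 1), (p.1 : ℚ) * jw p.1 * ja ℚ p.2)
          + ∑ p ∈ antidiagonal (j + 1), jw p.1 * ((p.2 : ℚ) * ja ℚ p.2) := by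
      rw [mul_sum, ← sum_add_distrib]
      refine sum_congr rfl fun p hp => ?_
      have hp' : ((p.1 : ℚ) + p.2) = (j : ℚ) + 1 := by
        exact_mod_cast mem_antidiagonal.1 hp
      rw [← hp']; ring
    have e2 : ∑ p ∈ antidiagonal (j + 1), (p.1 : ℚ) * jw p.1 * ja ℚ p.2
        = ∑ p ∈ antidiagonal j, ((p.1 : ℚ) + 1 / 4) * jw p.1 * ja ℚ p.2 := by
      rw [Finset.Nat.sum_antidiagonal_succ]
      simp only [Nat.cast_zero, zero_mul, zero_add, Nat.cast_add, Nat.cast_one]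
      refine sum_congr rfl fun p _ => ?_
      rw [jw_rec]
    have e3 : ∑ p ∈ antidiagonal (j + 1), jw p.1 * ((p.2 : ℚ) * ja ℚ p.2)
        = ∑ p ∈ antidiagonal j, jw p.1 * (((p.2 : ℚ) + 3 / 4) * ja ℚ p.2) := by
      rw [Finset.Nat.sum_antidiagonal_succ']
      simp only [Nat.cast_zero, zero_mul, mul_zero, zero_add, Nat.cast_add, Nat.cast_one]
      refine sum_congr rfl fun p _ => ?_
      rw [ja_rec]
    have e4 : (∑ p ∈ antidiagonal j, ((p.1 : ℚ) + 1 / 4) * jw p.1 * ja ℚ p.2)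
        + ∑ p ∈ antidiagonal j, jw p.1 * (((p.2 : ℚ) + 3 / 4) * ja ℚ p.2)
        = ((j : ℚ) + 1) * ∑ p ∈ antidiagonal j, jw p.1 * ja ℚ p.2 := by
      rw [mul_sum, ← sum_add_distrib]
      refine sum_congr rfl fun p hp => ?_
      have hp' : ((p.1 : ℚ) + p.2) = (j : ℚ) := by
        exact_mod_cast mem_antidiagonal.1 hp
      rw [← hp']; ring
    rw [e2, e3, e4, ih, mul_one] at e1
    exact mul_left_cancel₀ h1 (by rw [e1, mul_one])

theorem jb_conv (j : ℕ) : jb ℚ j = - ∑ p ∈ antidiagonal j, jw p.1 / (p.1 : ℚ) * ja ℚ p.2 := by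
  induction j with
  | zero => simp
  | succ j ih =>
    have h1 : ((j : ℚ) + 1) ≠ 0 := by positivity
    -- the sum over `a ≥ 1` of `w_a u_b`
    have hs : ∀ n : ℕ, ∑ p ∈ antidiagonal n, (p.1 : ℚ) * (jw p.1 / (p.1 : ℚ)) * ja ℚ p.2
        = 1 - ja ℚ n := by
      intro n
      have hc := conv_one n
      cases n with
      | zero => simp
      | succ n =>
        rw [Finset.Nat.sum_antidiagonal_succ] at hc ⊢
        have e : ∑ p ∈ antidiagonal n, (((p.1 + 1 : ℕ)) : ℚ) * (jw (p.1 + 1) / ((p.1 + 1 : ℕ) : ℚ))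
            * ja ℚ p.2 = ∑ p ∈ antidiagonal n, jw (p.1 + 1) * ja ℚ p.2 := by
          refine sum_congr rfl fun p _ => ?_
          have : ((p.1 + 1 : ℕ) : ℚ) ≠ 0 := by positivity
          rw [mul_div_cancel₀ _ this]
        have h0 : jw 0 = 1 := by simp [jw]
        simp only [Nat.cast_zero, zero_mul, zero_add] at hc ⊢
        rw [e]
        rw [h0, one_mul] at hc
        linarith
    have e1 : ((j : ℚ) + 1) * ∑ p ∈ antidiagonal (j + 1), jw p.1 / (p.1 : ℚ) * ja ℚ p.2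
        = (∑ p ∈ antidiagonal (j + 1), (p.1 : ℚ) * (jw p.1 / (p.1 : ℚ)) * ja ℚ p.2)
          + ∑ p ∈ antidiagonal (j + 1), jw p.1 / (p.1 : ℚ) * ((p.2 : ℚ) * ja ℚ p.2) := by
      rw [mul_sum, ← sum_add_distrib]
      refine sum_congr rfl fun p hp => ?_
      have hp' : ((p.1 : ℚ) + p.2) = (j : ℚ) + 1 := by
        exact_mod_cast mem_antidiagonal.1 hp
      rw [← hp']; ring
    have e3 : ∑ p ∈ antidiagonal (j + 1), jw p.1 / (p.1 : ℚ) * ((p.2 : ℚ) * ja ℚ p.2)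
        = ∑ p ∈ antidiagonal j, jw p.1 / (p.1 : ℚ) * (((p.2 : ℚ) + 3 / 4) * ja ℚ p.2) := by
      rw [Finset.Nat.sum_antidiagonal_succ']
      simp only [Nat.cast_zero, zero_mul, mul_zero, zero_add]
      refine sum_congr rfl fun p _ => ?_
      rw [Nat.cast_add, Nat.cast_one, ja_rec]
    have e4 : ∑ p ∈ antidiagonal j, jw p.1 / (p.1 : ℚ) * (((p.2 : ℚ) + 3 / 4) * ja ℚ p.2)
        = ((j : ℚ) + 3 / 4) * (∑ p ∈ antidiagonal j, jw p.1 / (p.1 : ℚ) * ja ℚ p.2)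
          - ∑ p ∈ antidiagonal j, (p.1 : ℚ) * (jw p.1 / (p.1 : ℚ)) * ja ℚ p.2 := by
      rw [mul_sum, ← sum_sub_distrib]
      refine sum_congr rfl fun p hp => ?_
      have hp' : ((p.1 : ℚ) + p.2) = (j : ℚ) := by
        exact_mod_cast mem_antidiagonal.1 hp
      rw [← hp']; ring
    have e5 := jb_rec j
    rw [hs, e3, e4, hs] at e1
    rw [ih] at e5
    refine mul_left_cancel₀ h1 ?_
    linear_combination e5 + e1

theorem jb_int (j : ℕ) : ∃ z : ℤ, (z : ℚ) = 8 ^ j * (Nat.lcmUpto j : ℚ) * jb ℚ j := by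
  choose A hA using ja_int
  choose W hW using jw_int
  have key : ∀ p ∈ antidiagonal j, ∃ z : ℤ,
      (z : ℚ) = 8 ^ j * (Nat.lcmUpto j : ℚ) * (jw p.1 / (p.1 : ℚ) * ja ℚ p.2) := by
    intro p hp
    have hp' : p.1 + p.2 = j := mem_antidiagonal.1 hp
    rcases Nat.eq_zero_or_pos p.1 with h0 | h0
    · exact ⟨0, by rw [h0]; simp⟩
    · have hd : p.1 ∣ Nat.lcmUpto j := by
        unfold Nat.lcmUpto
        exact Finset.dvd_lcm (f := id) (mem_Icc.2 ⟨h0, by omega⟩)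
      obtain ⟨q, hq⟩ := hd
      refine ⟨W p.1 * A p.2 * q, ?_⟩
      have h1 : (p.1 : ℚ) ≠ 0 := by positivity
      push_cast
      rw [hW, hA, hq, ← hp', pow_add]
      push_cast
      field_simp
  choose! Z hZ using key
  refine ⟨- ∑ p ∈ antidiagonal j, Z p, ?_⟩
  push_cast
  rw [jb_conv, mul_neg, mul_sum]
  congr 1
  exact sum_congr rfl fun p hp => hZ p hp

theorem rho_sum (i : ℕ) :
    rho ℚ i = ∑ j ∈ range (i + 1), (-1) ^ j * (i.choose j : ℚ) / (4 * (j : ℚ) + 1) := by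
  induction i with
  | zero => simp [rho]
  | succ i ih =>
    have h5 : (4 * ((i : ℚ) + 1) + 1) ≠ 0 := by positivity
    have hr : (4 * ((i : ℚ) + 1) + 1) * rho ℚ (i + 1) = 4 * ((i : ℚ) + 1) * rho ℚ i := by
      simp only [rho]; rw [prod_range_succ]; field_simp
    have halt : ∑ j ∈ range (i + 1 + 1), (-1 : ℚ) ^ j * ((i + 1).choose j : ℚ) = 0 := by
      have := Int.alternating_sum_range_choose (n := i + 1)
      rw [if_neg (Nat.succ_ne_zero i)] at this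
      exact_mod_cast this
    have e : (4 * ((i : ℚ) + 1) + 1) *
        ∑ j ∈ range (i + 1 + 1), (-1) ^ j * ((i + 1).choose j : ℚ) / (4 * (j : ℚ) + 1)
        = 4 * ((i : ℚ) + 1) * ∑ j ∈ range (i + 1), (-1) ^ j * (i.choose j : ℚ) / (4 * (j : ℚ) + 1) := by
      have e1 : 4 * ((i : ℚ) + 1) * ∑ j ∈ range (i + 1), (-1) ^ j * (i.choose j : ℚ) / (4 * (j : ℚ) + 1)
          = 4 * ((i : ℚ) + 1) * ∑ j ∈ range (i + 1 + 1), (-1) ^ j * (i.choose j : ℚ) / (4 * (j : ℚ) + 1) := by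
        rw [sum_range_succ _ (i + 1), Nat.choose_succ_self]; simp
      rw [e1]
      have e2 : (4 * ((i : ℚ) + 1) + 1) *
          ∑ j ∈ range (i + 1 + 1), (-1) ^ j * ((i + 1).choose j : ℚ) / (4 * (j : ℚ) + 1)
          = (∑ j ∈ range (i + 1 + 1), (-1 : ℚ) ^ j * ((i + 1).choose j : ℚ))
            + 4 * ((i : ℚ) + 1) * ∑ j ∈ range (i + 1 + 1), (-1) ^ j * (i.choose j : ℚ) / (4 * (j : ℚ) + 1) := by
        rw [mul_sum, mul_sum, ← sum_add_distrib]
        refine sum_congr rfl fun j hj => ?_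
        have hj' : j ≤ i + 1 := by have := mem_range.1 hj; omega
        have hch : (i.choose j : ℚ) * ((i : ℚ) + 1) = ((i + 1).choose j : ℚ) * ((i : ℚ) + 1 - j) := by
          have := Nat.choose_mul_succ_eq i j
          have hc : ((i + 1 - j : ℕ) : ℚ) = (i : ℚ) + 1 - j := by
            rw [Nat.cast_sub hj']; push_cast; ring
          rw [← hc]; exact_mod_cast this
        have h4 : (4 * (j : ℚ) + 1) ≠ 0 := by positivity
        field_simp
        have : 4 * ((i : ℚ) + 1) * (i.choose j : ℚ) = 4 * (((i + 1).choose j : ℚ) * ((i : ℚ) + 1 - j)) := by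
          rw [← hch]; ring
        linear_combination (-1 : ℚ) * this
      rw [e2, halt, zero_add]
    refine mul_left_cancel₀ h5 ?_
    rw [hr, ih, e]

theorem rho_int (i : ℕ) : ∃ z : ℤ, (z : ℚ) = (Nat.lcmUpto (4 * i + 1) : ℚ) * rho ℚ i := by
  have key : ∀ j ∈ range (i + 1), ∃ z : ℤ, (z : ℚ) = (Nat.lcmUpto (4 * i + 1) : ℚ) *
      ((-1) ^ j * (i.choose j : ℚ) / (4 * (j : ℚ) + 1)) := by
    intro j hj
    have hj' : j ≤ i := by have := mem_range.1 hj; omega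
    have hd : (4 * j + 1) ∣ Nat.lcmUpto (4 * i + 1) := by
      unfold Nat.lcmUpto
      exact Finset.dvd_lcm (f := id) (mem_Icc.2 ⟨by omega, by omega⟩)
    obtain ⟨q, hq⟩ := hd
    refine ⟨(-1) ^ j * (i.choose j : ℤ) * q, ?_⟩
    have h4 : (4 * (j : ℚ) + 1) ≠ 0 := by positivity
    rw [hq]
    push_cast
    field_simp
  choose! Z hZ using key
  refine ⟨∑ j ∈ range (i + 1), Z j, ?_⟩
  push_cast
  rw [rho_sum, mul_sum]
  exact sum_congr rfl fun j hj => hZ j hj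

end Pool.Agent.H78.NQ
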