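import Pool.Agent.H78.NQ.Defs

/-!
# NQ UwB: integrality of `jb` over `ℚ` from that of `ja` and of `w_j = ∏_{b<j} (4 b + 1) / (4^j j!)`

`∑_{b ≤ j} w_b u_(j-b) = 1` and `jb ℚ j = - ∑_{1 ≤ b ≤ j} w_b u_(j-b) / b`, `u = ja ℚ`.
-/

set_option autoImplicit false

namespace Pool.Agent.H78.NQ

open Finset

/-- `w_j = ∏_{b<j} (4 b + 1) / (4^j j!)` -/
def uwW (j : ℕ) : ℚ := (∏ b ∈ range j, (4 * (b : ℚ) + 1)) / (4 ^ j * (j.factorial : ℚ))

theorem uwW_zero : uwW 0 = 1 := by simp [uwW]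

theorem uwW_succ (j : ℕ) : ((j : ℚ) + 1) * uwW (j + 1) = ((j : ℚ) + 1 / 4) * uwW j := by
  have h1 : (j : ℚ) + 1 ≠ 0 := by positivity
  have h2 : (j.factorial : ℚ) ≠ 0 := by positivity
  have h3 : (4 : ℚ) ^ j ≠ 0 := by positivity
  rw [uwW, uwW, prod_range_succ, Nat.factorial_succ, pow_succ, Nat.cast_mul, Nat.cast_add,
    Nat.cast_one]
  field_simp

theorem ja_succ' (j : ℕ) : ((j : ℚ) + 1) * ja ℚ (j + 1) = ((j : ℚ) + 3 / 4) * ja ℚ j := by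
  have h1 : (j : ℚ) + 1 ≠ 0 := by positivity
  rw [ja_succ, mul_div_cancel₀ _ h1]
  ring

/-- `∑_{b ≤ j} w_b u_(j-b)` -/
def uwS (j : ℕ) : ℚ := ∑ q ∈ antidiagonal j, uwW q.1 * ja ℚ q.2

theorem uwS_one (j : ℕ) : uwS j = 1 := by
  induction j with
  | zero => simp [uwS, uwW_zero]
  | succ j ih =>
    have h1 : (j : ℚ) + 1 ≠ 0 := by positivity
    have h2 : ((j : ℚ) + 1) * uwS (j + 1) = ((j : ℚ) + 1) * uwS j := by
      have e1 : ((j : ℚ) + 1) * uwS (j + 1)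
          = ∑ q ∈ antidiagonal (j + 1), ((q.1 : ℚ) * uwW q.1) * ja ℚ q.2
            + ∑ q ∈ antidiagonal (j + 1), uwW q.1 * ((q.2 : ℚ) * ja ℚ q.2) := by
        rw [uwS, mul_sum, ← sum_add_distrib]
        refine sum_congr rfl fun q hq => ?_
        have h3 : ((q.1 : ℚ) + q.2) = (j : ℚ) + 1 := by
          have := mem_antidiagonal.1 hq
          exact_mod_cast this
        rw [← h3]
        ring
      rw [e1, Nat.sum_antidiagonal_succ, Nat.sum_antidiagonal_succ', uwS, mul_sum]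
      simp only [Nat.cast_zero, zero_mul, mul_zero, zero_add]
      rw [← sum_add_distrib]
      refine sum_congr rfl fun q hq => ?_
      have h3 : ((q.1 : ℚ) + q.2) = (j : ℚ) := by
        have := mem_antidiagonal.1 hq
        exact_mod_cast this
      rw [Nat.cast_add, Nat.cast_one, Nat.cast_add, Nat.cast_one, uwW_succ, ja_succ', ← h3]
      ring
    rw [ih] at h2
    exact mul_left_cancel₀ h1 h2

/-- `∑_{1 ≤ b ≤ j} w_b u_(j-b) / b` -/
def uwT (j : ℕ) : ℚ := ∑ q ∈ antidiagonal j, (uwW q.1 / (q.1 : ℚ)) * ja ℚ q.2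

theorem uwT_aux (j : ℕ) :
    ∑ q ∈ antidiagonal j, (q.1 : ℚ) * (uwW q.1 / (q.1 : ℚ)) * ja ℚ q.2 = 1 - ja ℚ j := by
  rw [← uwS_one j, uwS]
  cases j with
  | zero => simp [uwW_zero]
  | succ j =>
    rw [Nat.sum_antidiagonal_succ, Nat.sum_antidiagonal_succ]
    simp only [uwW_zero, one_mul, Nat.cast_zero, zero_mul, zero_add, add_sub_cancel_left]
    refine sum_congr rfl fun q _ => ?_
    have h1 : ((q.1 + 1 : ℕ) : ℚ) ≠ 0 := by positivity
    rw [mul_div_cancel₀ _ h1]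

theorem jb_eq (j : ℕ) : jb ℚ j = - uwT j := by
  induction j with
  | zero => simp [uwT]
  | succ j ih =>
    have h1 : (j : ℚ) + 1 ≠ 0 := by positivity
    have e1 : ((j : ℚ) + 1) * uwT (j + 1)
        = ∑ q ∈ antidiagonal (j + 1), (q.1 : ℚ) * (uwW q.1 / (q.1 : ℚ)) * ja ℚ q.2
          + ∑ q ∈ antidiagonal (j + 1), (uwW q.1 / (q.1 : ℚ)) * ((q.2 : ℚ) * ja ℚ q.2) := by
      rw [uwT, mul_sum, ← sum_add_distrib]
      refine sum_congr rfl fun q hq => ?_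
      have h3 : ((q.1 : ℚ) + q.2) = (j : ℚ) + 1 := by
        have := mem_antidiagonal.1 hq
        exact_mod_cast this
      rw [← h3]
      ring
    have e2 : ∑ q ∈ antidiagonal (j + 1), (uwW q.1 / (q.1 : ℚ)) * ((q.2 : ℚ) * ja ℚ q.2)
        = ((j : ℚ) + 3 / 4) * uwT j - (1 - ja ℚ j) := by
      rw [Nat.sum_antidiagonal_succ', ← uwT_aux j, uwT, mul_sum, ← sum_sub_distrib]
      simp only [Nat.cast_zero, zero_mul, mul_zero, zero_add]
      refine sum_congr rfl fun q hq => ?_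
      have h3 : ((q.1 : ℚ) + q.2) = (j : ℚ) := by
        have := mem_antidiagonal.1 hq
        exact_mod_cast this
      rw [Nat.cast_add, Nat.cast_one, ja_succ', ← h3]
      ring
    have e3 : ((j : ℚ) + 1) * jb ℚ (j + 1)
        = ((j : ℚ) + 3 / 4) * jb ℚ j - ja ℚ j + ja ℚ (j + 1) := by
      rw [jb_succ, ja_succ, mul_div_cancel₀ _ h1]
    have e4 : ((j : ℚ) + 1) * (jb ℚ (j + 1) + uwT (j + 1)) = 0 := by
      rw [mul_add, e3, e1, uwT_aux, e2, ih]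
      ring
    have := (mul_eq_zero.1 e4).resolve_left h1
    linear_combination this

theorem jb_int_of (hu : ∀ j : ℕ, ∃ z : ℤ, (z : ℚ) = 8 ^ j * ja ℚ j)
    (hw : ∀ j : ℕ, ∃ z : ℤ,
      (z : ℚ) = 8 ^ j * ((∏ b ∈ range j, (4 * (b : ℚ) + 1)) / (4 ^ j * (j.factorial : ℚ))))
    (j : ℕ) : ∃ z : ℤ, (z : ℚ) = 8 ^ j * (Nat.lcmUpto j : ℚ) * jb ℚ j := by
  have key : ∀ q : ℕ × ℕ, q ∈ antidiagonal j → ∃ z : ℤ,
      (z : ℚ) = 8 ^ j * (Nat.lcmUpto j : ℚ) * ((uwW q.1 / (q.1 : ℚ)) * ja ℚ q.2) := by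
    intro q hq
    have hq' := mem_antidiagonal.1 hq
    rcases Nat.eq_zero_or_pos q.1 with h0 | h0
    · exact ⟨0, by rw [h0]; simp⟩
    · obtain ⟨a, ha⟩ := hw q.1
      obtain ⟨b, hb⟩ := hu q.2
      have hd : q.1 ∣ Nat.lcmUpto j := by
        unfold Nat.lcmUpto
        exact Finset.dvd_lcm (f := id) (Finset.mem_Icc.2 ⟨h0, by omega⟩)
      obtain ⟨c, hc⟩ := hd
      refine ⟨a * b * c, ?_⟩
      have h1 : (q.1 : ℚ) ≠ 0 := by positivity
      have h2 : (8 : ℚ) ^ j = 8 ^ q.1 * 8 ^ q.2 := by rw [← pow_add, hq']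
      have h3 : (8 : ℚ) ^ q.1 * uwW q.1 = a := by rw [ha, uwW]
      rw [hc, Nat.cast_mul, h2, Int.cast_mul, Int.cast_mul, ← h3, hb, Int.cast_natCast]
      field_simp
  have h1 : 8 ^ j * (Nat.lcmUpto j : ℚ) * jb ℚ j
      = -∑ q ∈ antidiagonal j, 8 ^ j * (Nat.lcmUpto j : ℚ) * ((uwW q.1 / (q.1 : ℚ)) * ja ℚ q.2) := by
    rw [jb_eq, uwT, mul_neg, mul_sum]
  rw [h1]
  choose! f hf using key
  refine ⟨-∑ q ∈ antidiagonal j, f q, ?_⟩
  rw [Int.cast_neg, Int.cast_sum]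
  congr 1
  exact sum_congr rfl fun q hq => hf q hq

end Pool.Agent.H78.NQ
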