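import Pool.Agent.H78.NQ.Res2
import Pool.Agent.H78.NQ.Harm4
import Pool.Agent.H78.NQ.Jets4
import Pool.Agent.H78.NQ.Node4

/-!
# NQ Vanish4: the sum `J` vanishes in `ZMod p` for a Wieferich prime

PROOF. Residues of `(X + 3 k) f / ∏ (X - a)^2` (`residue_two` with `h = (X + 3 k) f`,
`deg h + 2 ≤ M + 3 ≤ 8 k + 2`), multiplied by `(4 k)!^2`.  Compare `H11/NW/Vanish.lean`.
-/

set_option autoImplicit false

namespace Pool.Agent.H78.NQ

open Finset Polynomial
open Pool.Agent.H11.NW (H Wf)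

/-- `N!^2` times the square of the inverse node product -/
private theorem weight_eq2 {F : Type} [Field F] (N a b : ℕ) (hab : a + b = N) (n : ℕ)
    (hN : (N.factorial : F) ≠ 0) :
    (N.factorial : F) ^ 2 * (((-1) ^ n * ((a.factorial : F) * (b.factorial : F)))⁻¹) ^ 2 =
      ((N.choose b : ℕ) : F) ^ 2 := by
  have h1 : (N.factorial : F) = (N.choose b : F) * (b.factorial : F) * (a.factorial : F) := by
    have h := Nat.choose_mul_factorial_mul_factorial (n := N) (k := b) (by omega)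
    have h' : N - b = a := by omega
    rw [h'] at h
    have h3 := congrArg (Nat.cast : ℕ → F) h
    push_cast at h3
    exact h3.symm
  have ha : (a.factorial : F) ≠ 0 := by
    intro h0
    apply hN
    rw [h1, h0, mul_zero]
  have hb : (b.factorial : F) ≠ 0 := by
    intro h0
    apply hN
    rw [h1, h0, mul_zero, zero_mul]
  have hs : (((-1 : F) ^ n)⁻¹) ^ 2 = 1 := by
    rcases neg_one_pow_eq_or F n with h | h <;> rw [h] <;> norm_num
  rw [mul_inv, mul_pow, hs, h1]
  field_simp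

private theorem taylor_lin_mul {F : Type} [Field F] (c a : F) (f : F[X]) :
    taylor a ((X + C c) * f) = (X + C (a + c)) * taylor a f := by
  rw [taylor_mul, map_add, taylor_X, taylor_C, C_add]
  ring

private theorem coeff_add0 {F : Type} [Field F] (j : F) (g : F[X]) :
    ((X + C j) * g).coeff 0 = j * g.coeff 0 := by
  simp [mul_coeff_zero]

private theorem coeff_add1 {F : Type} [Field F] (j : F) (g : F[X]) :
    ((X + C j) * g).coeff 1 = g.coeff 0 + j * g.coeff 1 := by
  rw [add_mul, coeff_add, coeff_X_mul, coeff_C_mul]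

private theorem term_neg {F : Type} [Field F] [DecidableEq F] (k : ℕ)
    (hk : ∀ n : ℕ, 0 < n → n ≤ 4 * k → (n : F) ≠ 0)
    (hfac : ((4 * k).factorial : F) ≠ 0) (f : F[X]) (j : ℕ) (hj : j ≤ 3 * k)
    (g0 : (taylor (-(j : F)) f).coeff 0 = ja F j)
    (g1 : (taylor (-(j : F)) f).coeff 1 = jb F j) :
    ((4 * k).factorial : F) ^ 2 *
      ((∏ b ∈ (nodes F k).erase (-(j : F)), (-(j : F) - b))⁻¹ ^ 2 *
      ((taylor (-(j : F)) ((X + C ((3 * k : ℕ) : F)) * f)).coeff 1
        + (-2 * ∑ b ∈ (nodes F k).erase (-(j : F)), (-(j : F) - b)⁻¹) *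
          (taylor (-(j : F)) ((X + C ((3 * k : ℕ) : F)) * f)).coeff 0)) =
      ((4 * k).choose (k + j) : F) ^ 2 * TN F k j := by
  obtain ⟨e1, e2⟩ := node_neg k hk j hj
  have e3 : -(j : F) + ((3 * k : ℕ) : F) = ((3 * k - j : ℕ) : F) := by
    rw [Nat.cast_sub hj]
    ring
  rw [e1, e2, taylor_lin_mul, e3, coeff_add0, coeff_add1, g0, g1,
    ← mul_assoc, weight_eq2 (4 * k) (3 * k - j) (k + j) (by omega) (k + j) hfac]
  unfold TN
  ring

private theorem term_pos {F : Type} [Field F] [DecidableEq F] (k : ℕ)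
    (hk : ∀ n : ℕ, 0 < n → n ≤ 4 * k → (n : F) ≠ 0)
    (hfac : ((4 * k).factorial : F) ≠ 0) (f : F[X]) (i : ℕ) (hi : i < k)
    (g0 : (taylor ((i : F) + 1) f).coeff 0 = 0)
    (g1 : (taylor ((i : F) + 1) f).coeff 1 = 4 * rho F i) :
    ((4 * k).factorial : F) ^ 2 *
      ((∏ b ∈ (nodes F k).erase ((i : F) + 1), ((i : F) + 1 - b))⁻¹ ^ 2 *
      ((taylor ((i : F) + 1) ((X + C ((3 * k : ℕ) : F)) * f)).coeff 1
        + (-2 * ∑ b ∈ (nodes F k).erase ((i : F) + 1), ((i : F) + 1 - b)⁻¹) *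
          (taylor ((i : F) + 1) ((X + C ((3 * k : ℕ) : F)) * f)).coeff 0)) =
      ((4 * k).choose (3 * k + i + 1) : F) ^ 2 * TP F k i := by
  have e1 := node_pos k hk i hi
  have e3 : (i : F) + 1 + ((3 * k : ℕ) : F) = ((3 * k + i + 1 : ℕ) : F) := by
    push_cast
    ring
  have e5 : ((3 * k + i + 1).factorial : F) * ((k - (i + 1)).factorial : F)
      = ((k - (i + 1)).factorial : F) * ((3 * k + i + 1).factorial : F) := mul_comm _ _
  rw [e1, e5, taylor_lin_mul, e3, coeff_add0, coeff_add1, g0, g1,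
    ← mul_assoc, weight_eq2 (4 * k) (k - (i + 1)) (3 * k + i + 1) (by omega) (k - (i + 1)) hfac]
  unfold TP
  ring

theorem J_zmod (p : ℕ) [Fact p.Prime] (hp : 3 < p) (hw : Wf p) (k : ℕ) (hg : Good k p) :
    J (ZMod p) k = 0 := by
  classical
  have hprime : p.Prime := Fact.out
  obtain ⟨h1, h2⟩ := hg
  have nz : ∀ n : ℕ, 0 < n → n < p → ((n : ℕ) : ZMod p) ≠ 0 := by
    intro n h0 hn h
    rw [ZMod.natCast_eq_zero_iff] at h
    exact absurd (Nat.le_of_dvd h0 h) (by omega)
  have hk : ∀ n : ℕ, 0 < n → n ≤ 4 * k → ((n : ℕ) : ZMod p) ≠ 0 :=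
    fun n h0 hn => nz n h0 (by omega)
  have hfac : (((4 * k).factorial : ℕ) : ZMod p) ≠ 0 := by
    intro h
    rw [ZMod.natCast_eq_zero_iff, hprime.dvd_factorial] at h
    omega
  have four : (4 : ZMod p) ≠ 0 := by
    have h2' : (2 : ZMod p) ≠ 0 := by
      have := nz 2 (by norm_num) (by omega)
      exact_mod_cast this
    have h4 : (4 : ZMod p) = 2 * 2 := by norm_num
    rw [h4]
    exact mul_ne_zero h2' h2'
  obtain ⟨M, hM⟩ : ∃ M : ℕ, (p % 4 = 1 ∧ M = (p - 1) / 4) ∨ (p % 4 = 3 ∧ M = (3 * p - 1) / 4) := by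
    rcases h2 with h | h
    · exact ⟨(p - 1) / 4, Or.inl ⟨h.1, rfl⟩⟩
    · exact ⟨(3 * p - 1) / 4, Or.inr ⟨h.1, rfl⟩⟩
  have hMp : M < p := by omega
  have hMk : M + 1 ≤ 8 * k := by omega
  have hM4 : 4 * (M : ZMod p) + 1 = 0 := by
    rcases hM with ⟨ha, hb⟩ | ⟨ha, hb⟩
    · have e : 4 * M + 1 = p := by omega
      have := congrArg (fun n : ℕ => (n : ZMod p)) e
      push_cast at this
      rw [this, ZMod.natCast_self]
    · have e : 4 * M + 1 = 3 * p := by omega
      have := congrArg (fun n : ℕ => (n : ZMod p)) e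
      push_cast at this
      rw [this, ZMod.natCast_self, mul_zero]
  obtain ⟨f, fd, f0, f1, ff⟩ := exists_poly4 p hp M hMp hM4
  have f1' : f.coeff 1 = 0 := by rw [f1, harm4_zero p hp hw M hM, neg_zero]
  -- the degree
  have hdeg : ((X + C ((3 * k : ℕ) : ZMod p)) * f).natDegree + 2 ≤
      2 * (nodes (ZMod p) k).card := by
    rw [card_nodes k hk]
    have a1 : ((X + C ((3 * k : ℕ) : ZMod p)) * f).natDegree ≤ 1 + M := by
      refine natDegree_mul_le.trans (Nat.add_le_add ?_ fd)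
      rw [natDegree_X_add_C]
    omega
  have key := residue_two (nodes (ZMod p) k) _ hdeg
  rw [sum_nodes k hk] at key
  refine Eq.trans ?_ ((congrArg (fun z => (((4 * k).factorial : ℕ) : ZMod p) ^ 2 * z) key).trans
    (mul_zero _))
  show J (ZMod p) k = (((4 * k).factorial : ℕ) : ZMod p) ^ 2 * (_ + _)
  rw [mul_add, mul_sum, mul_sum]
  unfold J
  congr 1
  · refine sum_congr rfl fun j hj => ?_
    have hj' : j ≤ 3 * k := by
      have := mem_range.1 hj
      omega
    obtain ⟨g0, g1⟩ := jet_neg4 four f ff f0 f1' j (fun b hb => by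
      have := nz (b + 1) (by omega) (by omega)
      exact_mod_cast this)
    exact (term_neg k hk hfac f j hj' g0 g1).symm
  · refine sum_congr rfl fun i hi => ?_
    have hi' : i < k := mem_range.1 hi
    obtain ⟨g0, g1⟩ := jet_pos4 four f ff f0 i (fun b hb => by
      have := nz (4 * (b + 1) + 1) (by omega) (by omega)
      push_cast at this
      exact this)
    exact (term_pos k hk hfac f i hi' g0 g1).symm

end Pool.Agent.H78.NQ
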